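import Pool.Agent.Helper20.Rich.Final

/-!
MP_0687f0_co: the base of the towers for an odd number of letters. The hub of the side `σ` is
`z a z` with `a = lam (!σ) 0`, the small words are `aa` (`a = lam σ 0`), `b, bb, c, cc, ...` and
the empty word.
-/

namespace Pool.Agent.Helper20.Rich

variable {α : Type*}

structure OB (α : Type*) where
  s : ℕ
  z : α
  lam : Bool → ℕ → α
  hs : 2 ≤ s
  ne : ∀ σ c, c ≤ 2 * s - 2 → lam σ c ≠ z
  dbl : ∀ σ c, c % 2 = 1 → c + 1 ≤ 2 * s - 2 → lam σ (c + 1) = lam σ c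
  small : ∀ σ τ c d, c ≤ d → d ≤ 2 * s - 2 → lam σ c = lam τ d →
    σ = τ ∧ (d = c ∨ (d = c + 1 ∧ c % 2 = 1))

/-- multiplicity -/
def mo (c : ℕ) : ℕ := if c % 2 = 1 then 1 else 2

theorem mo_pos (c : ℕ) : 1 ≤ mo c := by unfold mo; split_ifs <;> omega
theorem mo_le (c : ℕ) : mo c ≤ 2 := by unfold mo; split_ifs <;> omega
theorem mo_odd {c : ℕ} (h : c % 2 = 1) : mo c = 1 := by unfold mo; rw [if_pos h]
theorem mo_even {c : ℕ} (h : c % 2 = 0) : mo c = 2 := by unfold mo; rw [if_neg (by omega)]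

namespace OB

variable (P : OB α)

/-- the words -/
def ow (σ : Bool) (c : ℕ) : List α :=
  if c = 2 * P.s then [P.z, P.lam (!σ) 0, P.z]
  else if c = 2 * P.s - 1 then [] else List.replicate (mo c) (P.lam σ c)

theorem ow_hub (σ : Bool) : P.ow σ (2 * P.s) = [P.z, P.lam (!σ) 0, P.z] := by
  unfold ow; rw [if_pos rfl]

theorem ow_emp (σ : Bool) : P.ow σ (2 * P.s - 1) = [] := by
  have := P.hs
  unfold ow; rw [if_neg (by omega), if_pos rfl]

theorem ow_small (σ : Bool) {c : ℕ} (h : c ≤ 2 * P.s - 2) :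
    P.ow σ c = List.replicate (mo c) (P.lam σ c) := by
  have := P.hs
  unfold ow; rw [if_neg (by omega), if_neg (by omega)]

theorem lam_ne (σ τ : Bool) (h : σ ≠ τ) : P.lam σ 0 ≠ P.lam τ 0 := fun h' =>
  h (P.small σ τ 0 0 le_rfl (by omega) h').1

theorem get_small (σ : Bool) {c t : ℕ} (h : c ≤ 2 * P.s - 2) (ht : t < mo c) (r : List α) :
    (P.ow σ c ++ r)[t]? = some (P.lam σ c) := by
  rw [P.ow_small σ h, List.getElem?_append_left (by simpa using ht),
    List.getElem?_replicate_of_lt ht]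

theorem get_next (σ : Bool) {c : ℕ} (h : c ≤ 2 * P.s - 2) (r : List α) :
    (P.ow σ c ++ r)[mo c]? = r[0]? := by
  rw [P.ow_small σ h, List.getElem?_append_right (by simp)]
  simp

/-- the base of towers -/
def toBase : Base α where
  j := 2 * P.s
  w := P.ow
  e c := if c = 2 * P.s - 1 then 1 else 0
  hj := by have := P.hs; omega
  pal σ n hn := by
    have := P.hs
    by_cases h1 : n = 2 * P.s
    · subst h1; rw [ow_hub]; simp
    · by_cases h2 : n = 2 * P.s - 1
      · subst h2; rw [ow_emp]; simp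
      · rw [P.ow_small σ (by omega)]; simp
  len n hn := by
    have := P.hs
    by_cases h1 : n = 2 * P.s
    · subst h1; rw [ow_hub, ow_hub]; simp
    · by_cases h2 : n = 2 * P.s - 1
      · subst h2; rw [ow_emp, ow_emp]
      · rw [P.ow_small _ (by omega), P.ow_small _ (by omega)]; simp
  hub σ := by rw [ow_hub]; simp
  bm σ r hr := by
    have := P.hs
    rw [ow_hub, ow_hub, Bool.not_not]
    by_cases h2 : r = 2 * P.s - 1
    · subst h2
      rw [if_pos rfl, ow_emp]
      exact ⟨1, le_rfl, P.lam (!σ) 0, P.lam σ 0, by simp, by simp,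
        P.lam_ne _ _ (by cases σ <;> simp)⟩
    · rw [if_neg h2]
      exact ⟨0, le_rfl, P.z, P.lam σ r, by simp, P.get_small σ (by omega) (mo_pos r) _,
        (P.ne σ r (by omega)).symm⟩
  sm σ n m hnm hmj := by
    have := P.hs
    rw [ow_hub, Bool.not_not]
    by_cases h2 : m = 2 * P.s - 1
    · subst h2
      rw [ow_emp]
      refine ⟨0, by omega, P.lam σ n, P.z, P.get_small σ (by omega) (mo_pos n) _, by simp,
        P.ne σ n (by omega)⟩
    · by_cases hne : P.lam σ n = P.lam σ m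
      · have h3 := (P.small σ σ n m hnm.le (by omega) hne).2
        have h4 : m = n + 1 ∧ n % 2 = 1 := by omega
        rw [if_pos ⟨h4.2, h4.1⟩]
        refine ⟨1, le_rfl, P.z, P.lam σ m, ?_, P.get_small σ (by omega) ?_ _, ?_⟩
        · have h5 := P.get_next σ (c := n) (by omega) [P.z, P.lam σ 0, P.z]
          rw [mo_odd h4.2] at h5
          rw [h5]; rfl
        · rw [mo_even (by omega)]; norm_num
        · exact (P.ne σ m (by omega)).symm
      · exact ⟨0, by omega, P.lam σ n, P.lam σ m, P.get_small σ (by omega) (mo_pos n) _,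
          P.get_small σ (by omega) (mo_pos m) _, hne⟩

@[simp] theorem toBase_j : P.toBase.j = 2 * P.s := rfl

theorem W_small (σ : Bool) {c : ℕ} (h : c ≤ 2 * P.s) : P.toBase.W σ c = P.ow σ c :=
  P.toBase.W_le h

theorem l_hub : P.toBase.l (2 * P.s) = 3 := by
  rw [Base.l, P.W_small false le_rfl, ow_hub]; rfl

theorem l_emp : P.toBase.l (2 * P.s - 1) = 0 := by
  rw [Base.l, P.W_small false (by omega), ow_emp]; rfl

theorem l_small {c : ℕ} (h : c ≤ 2 * P.s - 2) : P.toBase.l c = mo c := by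
  rw [Base.l, P.W_small false (by omega), P.ow_small _ h]; simp

theorem S_small {n : ℕ} (h : n < 2 * P.s - 1) : P.toBase.S n = 0 := by
  rw [Base.S_lt (b := P.toBase) (by rw [toBase_j]; omega)]
  show (if n = 2 * P.s - 1 then 1 else 0) = 0
  rw [if_neg (by omega)]

theorem S_emp : P.toBase.S (2 * P.s - 1) = 1 := by
  have := P.hs
  rw [Base.S_lt (b := P.toBase) (by rw [toBase_j]; omega)]
  show (if 2 * P.s - 1 = 2 * P.s - 1 then 1 else 0) = 1
  rw [if_pos rfl]

variable {P} {x0 : α}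

/-- every position lies in a block of level `0`. -/
theorem block_of (i : ℕ) : ∃ s, P.toBase.pos 0 s ≤ i ∧ i < P.toBase.pos 0 (s + 1) := by
  by_contra hcon
  push Not at hcon
  have : ∀ s, P.toBase.pos 0 s ≤ i := by
    intro s
    induction s with
    | zero => simp
    | succ s ih => exact hcon s ih
  have h1 := this (2 * (i + 1))
  have h2 := Base.pos_ge (b := P.toBase) 0 (i + 1)
  omega

/-- a hub block -/
theorem rd_hub {r : ℕ} {σ : Bool} (h : DD (2 * P.s) r = (σ, 2 * P.s)) :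
    P.toBase.pos 0 (r + 1) = P.toBase.pos 0 r + 3 ∧
    P.toBase.u x0 (P.toBase.pos 0 r) = P.z ∧
    P.toBase.u x0 (P.toBase.pos 0 r + 1) = P.lam (!σ) 0 ∧
    P.toBase.u x0 (P.toBase.pos 0 r + 2) = P.z := by
  have h3 := Base.pos_idx (b := P.toBase) (k := 0) h
  rw [zero_add, P.l_hub] at h3
  have h4 := Base.pos_block x0 (b := P.toBase) 0 r
  rw [toBase_j, h] at h4
  simp only [zero_add] at h4
  rw [P.W_small σ le_rfl, ow_hub] at h4
  refine ⟨h3, ?_, ?_, ?_⟩
  · have := h4.get (t := 0) (a := P.z) (by simp)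
    rwa [add_zero] at this
  · exact h4.get (t := 1) (by simp)
  · exact h4.get (t := 2) (by simp)

theorem rd_emp {r : ℕ} {σ : Bool} (h : DD (2 * P.s) r = (σ, 2 * P.s - 1)) :
    P.toBase.pos 0 (r + 1) = P.toBase.pos 0 r := by
  have h3 := Base.pos_idx (b := P.toBase) (k := 0) h
  rw [zero_add, P.l_emp] at h3
  omega

theorem rd_small {r c : ℕ} {σ : Bool} (h : DD (2 * P.s) r = (σ, c)) (hc : c ≤ 2 * P.s - 2) :
    P.toBase.pos 0 (r + 1) = P.toBase.pos 0 r + mo c ∧
    ∀ t < mo c, P.toBase.u x0 (P.toBase.pos 0 r + t) = P.lam σ c := by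
  have h3 := Base.pos_idx (b := P.toBase) (k := 0) h
  rw [zero_add, P.l_small hc] at h3
  have h4 := Base.pos_block x0 (b := P.toBase) 0 r
  rw [toBase_j, h] at h4
  simp only [zero_add] at h4
  rw [P.W_small σ (by omega), P.ow_small σ hc] at h4
  refine ⟨h3, fun t ht => ?_⟩
  exact h4.get (t := t) (by rw [List.getElem?_replicate_of_lt ht])

/-- the kinds of a position -/
theorem kinds (i : ℕ) : (∃ r σ, DD (2 * P.s) r = (σ, 2 * P.s) ∧
      (i = P.toBase.pos 0 r ∨ i = P.toBase.pos 0 r + 1 ∨ i = P.toBase.pos 0 r + 2)) ∨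
    (∃ r σ c, DD (2 * P.s) r = (σ, c) ∧ c ≤ 2 * P.s - 2 ∧ ∃ t < mo c,
      i = P.toBase.pos 0 r + t) := by
  have hs := P.hs
  obtain ⟨r, h1, h2⟩ := P.block_of i
  obtain ⟨σ, c, hr⟩ : ∃ σ c, DD (2 * P.s) r = (σ, c) := ⟨_, _, rfl⟩
  have hc := DD_le (2 * P.s) r
  rw [hr] at hc
  simp only at hc
  by_cases h3 : c = 2 * P.s
  · subst h3
    have h4 := (P.rd_hub (x0 := P.z) hr).1
    exact Or.inl ⟨r, σ, hr, by omega⟩
  · by_cases h4 : c = 2 * P.s - 1
    · subst h4
      have := P.rd_emp hr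
      omega
    · have h5 := (P.rd_small (x0 := P.z) hr (by omega)).1
      exact Or.inr ⟨r, σ, c, hr, by omega, i - P.toBase.pos 0 r, by omega, by omega⟩

/-- the letter at a position, with its neighbour -/
theorem sep_hub {r c : ℕ} {σ : Bool} (h : DD (2 * P.s) r = (σ, c)) (hc : c < 2 * P.s) :
    DD (2 * P.s) (r + 1) = (!σ, 2 * P.s) := Base.sep_right (b := P.toBase) hc h

theorem sep_hub' {r c : ℕ} {σ : Bool} (h : DD (2 * P.s) r = (σ, c)) (hc : c < 2 * P.s) :
    1 ≤ r ∧ DD (2 * P.s) (r - 1) = (!σ, 2 * P.s) := Base.sep_left (b := P.toBase) hc h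

/-- after a small word the common letter follows -/
theorem after_small {r c : ℕ} {σ : Bool} (h : DD (2 * P.s) r = (σ, c)) (hc : c ≤ 2 * P.s - 2) :
    P.toBase.u x0 (P.toBase.pos 0 r + mo c) = P.z := by
  have hs := P.hs
  rw [← (P.rd_small (x0 := x0) h hc).1]
  exact (P.rd_hub (x0 := x0) (P.sep_hub h (by omega))).2.1

/-- before a small word there is the common letter -/
theorem before_small {r c : ℕ} {σ : Bool} (h : DD (2 * P.s) r = (σ, c)) (hc : c ≤ 2 * P.s - 2) :
    1 ≤ P.toBase.pos 0 r ∧ P.toBase.u x0 (P.toBase.pos 0 r - 1) = P.z := by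
  have hs := P.hs
  obtain ⟨h1, h2⟩ := P.sep_hub' h (by omega)
  obtain ⟨h3, h4, h5, h6⟩ := P.rd_hub (x0 := x0) h2
  rw [Nat.sub_add_cancel h1] at h3
  refine ⟨by omega, ?_⟩
  rw [← h6]
  congr 1
  omega

theorem natBase : P.toBase.NatBase x0 := by
  intro σ i hocc
  change Occ _ i (P.ow σ (2 * P.s)) at hocc
  rw [ow_hub] at hocc
  have hs := P.hs
  have g0 : P.toBase.u x0 i = P.z := by
    have := hocc.get (t := 0) (a := P.z) (by simp)
    rwa [add_zero] at this
  have g1 : P.toBase.u x0 (i + 1) = P.lam (!σ) 0 := hocc.get (t := 1) (by simp)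
  have g2 : P.toBase.u x0 (i + 2) = P.z := hocc.get (t := 2) (by simp)
  rcases P.kinds (i + 1) with ⟨r, τ, h1, h2⟩ | ⟨r, τ, c, h1, h2, t, ht, h3⟩
  · obtain ⟨h3, h4, h5, h6⟩ := P.rd_hub (x0 := x0) h1
    rcases h2 with h | h | h
    · rw [← h, g1] at h4
      exact absurd h4 (P.ne _ 0 (by omega))
    · have hi : P.toBase.pos 0 r = i := by omega
      rw [← h, g1] at h5
      have := (P.small _ _ 0 0 le_rfl (by omega) h5).1
      have : σ = τ := by cases σ <;> cases τ <;> simp_all
      subst this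
      exact ⟨r, h1, hi⟩
    · rw [← h, g1] at h6
      exact absurd h6 (P.ne _ 0 (by omega))
  · obtain ⟨h4, h5⟩ := P.rd_small (x0 := x0) h1 h2
    have h6 := h5 t ht
    rw [← h3, g1] at h6
    have h7 := (P.small _ _ 0 c (by omega) h2 h6).2
    have hc : c = 0 := by omega
    subst hc
    have hm : mo 0 = 2 := rfl
    rw [hm] at ht h5
    rcases Nat.lt_or_ge t 1 with h8 | h8
    · have h9 := h5 1 (by omega)
      rw [show P.toBase.pos 0 r + 1 = i + 2 by omega, g2] at h9
      exact absurd h9.symm (P.ne _ 0 (by omega))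
    · have h9 := h5 0 (by omega)
      rw [show P.toBase.pos 0 r + 0 = i by omega, g0] at h9
      exact absurd h9.symm (P.ne _ 0 (by omega))

/-- first occurrences of small words -/
theorem first_t {K z : ℕ} (hK : K ≤ 2 * P.s - 2) (hz : z < P.toBase.l (K + 2 * P.s)) :
    ¬ Occ (P.toBase.u x0) z (P.toBase.W true K) := by
  intro hocc
  have hs := P.hs
  rw [P.W_small true (by omega), P.ow_small _ hK] at hocc
  have g0 : P.toBase.u x0 z = P.lam true K := by
    have := hocc.get (t := 0) (a := P.lam true K) (by rw [List.getElem?_replicate_of_lt (mo_pos K)])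
    rwa [add_zero] at this
  have g1 : mo K = 2 → P.toBase.u x0 (z + 1) = P.lam true K := fun h =>
    hocc.get (t := 1) (by rw [List.getElem?_replicate_of_lt (by omega)])
  rcases P.kinds z with ⟨r, τ, h1, h2⟩ | ⟨r, τ, c, h1, h2, t, ht, h3⟩
  · obtain ⟨h3, h4, h5, h6⟩ := P.rd_hub (x0 := x0) h1
    rcases h2 with h | h | h
    · rw [← h, g0] at h4
      exact P.ne _ K hK h4
    · rw [← h, g0] at h5
      have h7 := (P.small _ _ 0 K (by omega) hK h5.symm).2
      have hK0 : K = 0 := by omega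
      subst hK0
      have := g1 rfl
      rw [show z + 1 = P.toBase.pos 0 r + 2 by omega, h6] at this
      exact P.ne _ 0 (by omega) this.symm
    · rw [← h, g0] at h6
      exact P.ne _ K hK h6
  · obtain ⟨h4, h5⟩ := P.rd_small (x0 := x0) h1 h2
    have h6 := h5 t ht
    rw [← h3, g0] at h6
    rcases Nat.lt_or_ge c K with h | h
    · obtain ⟨rfl, h7⟩ := P.small _ _ c K h.le hK h6.symm
      have h8 : K = c + 1 ∧ c % 2 = 1 := by omega
      have hm1 := mo_odd h8.2
      have h9 := g1 (mo_even (by omega))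
      have h10 := P.after_small (x0 := x0) h1 h2
      rw [show P.toBase.pos 0 r + mo c = z + 1 by omega, h9] at h10
      exact P.ne _ K hK h10
    · obtain ⟨rfl, h7⟩ := P.small _ _ K c h h2 h6
      have := Base.FO_tc (b := P.toBase) c 0 r (by rw [toBase_j]; omega) h1
      rw [zero_add, toBase_j] at this
      have h8 := P.toBase.l_mono (m := K + 2 * P.s) (n := c + 2 * P.s) (by simp) (by omega)
      omega

theorem first_f {K z : ℕ} (hK : K ≤ 2 * P.s - 2)
    (hz : z < P.toBase.l (K + 2 * P.s + 1 + 2 * P.s) + P.toBase.l (K + 2 * P.s)) :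
    ¬ Occ (P.toBase.u x0) z (P.toBase.W false K) := by
  intro hocc
  have hs := P.hs
  rw [P.W_small false (by omega), P.ow_small _ hK] at hocc
  have g0 : P.toBase.u x0 z = P.lam false K := by
    have := hocc.get (t := 0) (a := P.lam false K) (by rw [List.getElem?_replicate_of_lt (mo_pos K)])
    rwa [add_zero] at this
  have g1 : mo K = 2 → P.toBase.u x0 (z + 1) = P.lam false K := fun h =>
    hocc.get (t := 1) (by rw [List.getElem?_replicate_of_lt (by omega)])
  rcases P.kinds z with ⟨r, τ, h1, h2⟩ | ⟨r, τ, c, h1, h2, t, ht, h3⟩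
  · obtain ⟨h3, h4, h5, h6⟩ := P.rd_hub (x0 := x0) h1
    rcases h2 with h | h | h
    · rw [← h, g0] at h4
      exact P.ne _ K hK h4
    · rw [← h, g0] at h5
      have h7 := (P.small _ _ 0 K (by omega) hK h5.symm).2
      have hK0 : K = 0 := by omega
      subst hK0
      have := g1 rfl
      rw [show z + 1 = P.toBase.pos 0 r + 2 by omega, h6] at this
      exact P.ne _ 0 (by omega) this.symm
    · rw [← h, g0] at h6
      exact P.ne _ K hK h6
  · obtain ⟨h4, h5⟩ := P.rd_small (x0 := x0) h1 h2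
    have h6 := h5 t ht
    rw [← h3, g0] at h6
    rcases Nat.lt_or_ge c K with h | h
    · obtain ⟨rfl, h7⟩ := P.small _ _ c K h.le hK h6.symm
      have h8 : K = c + 1 ∧ c % 2 = 1 := by omega
      have hm1 := mo_odd h8.2
      have h9 := g1 (mo_even (by omega))
      have h10 := P.after_small (x0 := x0) h1 h2
      rw [show P.toBase.pos 0 r + mo c = z + 1 by omega, h9] at h10
      exact P.ne _ K hK h10
    · obtain ⟨rfl, h7⟩ := P.small _ _ K c h h2 h6
      have := Base.FO_fc (b := P.toBase) c 0 r (by rw [toBase_j]; omega) h1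
      rw [zero_add, toBase_j] at this
      have h8 := P.toBase.l_mono (m := K + 2 * P.s) (n := c + 2 * P.s) (by simp) (by omega)
      have h9 := P.toBase.l_mono (m := K + 2 * P.s + 1 + 2 * P.s)
        (n := c + 1 + 2 * P.s + 2 * P.s) (by simp) (by omega)
      omega

/-- where two common letters meet -/
theorem zz_at {x : ℕ} (h0 : P.toBase.u x0 x = P.z) (h1 : P.toBase.u x0 (x + 1) = P.z) :
    ∃ r σ c, DD (2 * P.s) r = (σ, 2 * P.s) ∧ x = P.toBase.pos 0 r + 2 ∧
      DD (2 * P.s) (r + 1) = (!σ, c) ∧ 2 * P.s - 1 ≤ c ∧ c ≤ 2 * P.s := by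
  have hs := P.hs
  rcases P.kinds x with ⟨r, τ, h2, h3⟩ | ⟨r, τ, c, h2, h3, t, ht, h4⟩
  · obtain ⟨h4, h5, h6, h7⟩ := P.rd_hub (x0 := x0) h2
    rcases h3 with h | h | h
    · rw [← h, h1] at h6
      exact absurd h6.symm (P.ne _ 0 (by omega))
    · rw [← h, h0] at h6
      exact absurd h6.symm (P.ne _ 0 (by omega))
    · obtain ⟨c, e1, e2⟩ := Base.side_right (b := P.toBase) h2
      rw [toBase_j] at e1 e2
      refine ⟨r, τ, c, h2, h, e1, ?_, e2⟩
      by_contra hcon
      have h8 := (P.rd_small (x0 := x0) e1 (by omega)).2 0 (mo_pos c)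
      rw [show P.toBase.pos 0 (r + 1) + 0 = x + 1 by omega, h1] at h8
      exact P.ne _ c (by omega) h8.symm
  · obtain ⟨h5, h6⟩ := P.rd_small (x0 := x0) h2 h3
    have h7 := h6 t ht
    rw [← h4, h0] at h7
    exact absurd h7.symm (P.ne _ c h3)

/-- first occurrence of the double of the common letter -/
theorem first_zz {x : ℕ} (h0 : P.toBase.u x0 x = P.z) (h1 : P.toBase.u x0 (x + 1) = P.z) :
    P.toBase.l (2 * P.s - 1 + 2 * P.s) ≤ x + 1 := by
  have hs := P.hs
  obtain ⟨r, σ, c, h2, h3, h4, h5, h6⟩ := P.zz_at h0 h1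
  have h7 := (P.rd_hub (x0 := x0) h2).1
  cases σ
  · rcases Nat.eq_or_lt_of_le h6 with h8 | h8
    · subst h8
      have h9 := Base.FO_tj (b := P.toBase) (r + 1) 0 h4
      have h10 := P.toBase.l_mono (m := 2 * P.s - 1 + 2 * P.s) (n := 0 + 2 * P.s + 2 * P.s)
        (by simp) (by omega)
      rw [toBase_j] at h9
      omega
    · have hc : c = 2 * P.s - 1 := by omega
      subst hc
      have h9 := Base.FO_tc (b := P.toBase) (2 * P.s - 1) 0 (r + 1) (by rw [toBase_j]; omega) h4
      rw [toBase_j, zero_add] at h9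
      omega
  · have h9 := Base.FO_tj (b := P.toBase) r 0 h2
    have h10 := P.toBase.l_mono (m := 2 * P.s - 1 + 2 * P.s) (n := 0 + 2 * P.s + 2 * P.s)
      (by simp) (by omega)
    rw [toBase_j] at h9
    omega

/-- the word `a z z a`, `a = lam false 0` -/
theorem first_azza {x : ℕ} (h0 : P.toBase.u x0 x = P.lam false 0)
    (h1 : P.toBase.u x0 (x + 1) = P.z) (h2 : P.toBase.u x0 (x + 2) = P.z)
    (h3 : P.toBase.u x0 (x + 3) = P.lam false 0) :
    P.toBase.l (2 * P.s - 1 + 2 * P.s + 1 + 2 * P.s) + P.toBase.l (2 * P.s - 1 + 2 * P.s) ≤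
      x + 2 := by
  have hs := P.hs
  obtain ⟨r, σ, c, g1, g2, g3, g4, g5⟩ := P.zz_at h1 h2
  obtain ⟨e1, e2, e3, e4⟩ := P.rd_hub (x0 := x0) g1
  have hσ : σ = true := by
    rw [show P.toBase.pos 0 r + 1 = x by omega, h0] at e3
    have := (P.small _ _ 0 0 le_rfl (by omega) e3).1
    cases σ
    · simp at this
    · rfl
  subst hσ
  rcases Nat.eq_or_lt_of_le g5 with h8 | h8
  · subst h8
    obtain ⟨f1, f2, f3, f4⟩ := P.rd_hub (x0 := x0) g3
    rw [show P.toBase.pos 0 (r + 1) + 1 = x + 3 by omega, h3] at f3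
    have := (P.small _ _ 0 0 le_rfl (by omega) f3).1
    simp at this
  · have hc : c = 2 * P.s - 1 := by omega
    subst hc
    have h9 := Base.FO_fc (b := P.toBase) (2 * P.s - 1) 0 (r + 1) (by rw [toBase_j]; omega) g3
    rw [toBase_j, zero_add, show 2 * P.s - 1 + 1 + 2 * P.s + 2 * P.s =
      2 * P.s - 1 + 2 * P.s + 1 + 2 * P.s by omega] at h9
    omega

/-- the letter `a = lam false 0` -/
theorem first_a {x : ℕ} (h0 : P.toBase.u x0 x = P.lam false 0) :
    P.toBase.l (2 * P.s + 2 * P.s) + 1 ≤ x := by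
  have hs := P.hs
  rcases P.kinds x with ⟨r, τ, h2, h3⟩ | ⟨r, τ, c, h2, h3, t, ht, h4⟩
  · obtain ⟨h4, h5, h6, h7⟩ := P.rd_hub (x0 := x0) h2
    rcases h3 with h | h | h
    · rw [← h, h0] at h5
      exact absurd h5 (P.ne _ 0 (by omega))
    · rw [← h, h0] at h6
      have := (P.small _ _ 0 0 le_rfl (by omega) h6).1
      have hτ : τ = true := by
        cases τ
        · simp at this
        · rfl
      subst hτ
      have h9 := Base.FO_tj (b := P.toBase) r 0 h2
      rw [toBase_j, zero_add] at h9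
      omega
    · rw [← h, h0] at h7
      exact absurd h7 (P.ne _ 0 (by omega))
  · obtain ⟨h5, h6⟩ := P.rd_small (x0 := x0) h2 h3
    have h7 := h6 t ht
    rw [← h4, h0] at h7
    obtain ⟨rfl, h8⟩ := P.small _ _ 0 c (by omega) h3 h7
    have hc : c = 0 := by omega
    subst hc
    have h9 := Base.FO_fc (b := P.toBase) 0 0 r (by rw [toBase_j]; omega) h2
    rw [toBase_j, zero_add] at h9
    have h10 := P.toBase.l_mono (m := 2 * P.s + 2 * P.s) (n := 0 + 1 + 2 * P.s + 2 * P.s)
        (by simp) (by omega)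
    have h11 := P.toBase.l_pos (n := 0 + 2 * P.s) (by simp)
    omega

/-- the word `a z a`, `a = lam false 0` -/
theorem first_aza {x : ℕ} (h0 : P.toBase.u x0 x = P.lam false 0)
    (_h1 : P.toBase.u x0 (x + 1) = P.z) (h2 : P.toBase.u x0 (x + 2) = P.lam false 0) :
    P.toBase.l (2 * P.s + 1 + 2 * P.s) + 1 ≤ x := by
  have hs := P.hs
  have hl : P.toBase.l (0 + 2 * P.s) = 3 := by rw [zero_add]; exact P.l_hub
  rcases P.kinds x with ⟨r, τ, h2', h3⟩ | ⟨r, τ, c, h2', h3, t, ht, h4⟩
  · obtain ⟨h4, h5, h6, h7⟩ := P.rd_hub (x0 := x0) h2'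
    rcases h3 with h | h | h
    · rw [← h, h0] at h5
      exact absurd h5 (P.ne _ 0 (by omega))
    · rw [← h, h0] at h6
      have := (P.small _ _ 0 0 le_rfl (by omega) h6).1
      have hτ : τ = true := by
        cases τ
        · simp at this
        · rfl
      subst hτ
      obtain ⟨c, e1, e2⟩ := Base.side_right (b := P.toBase) h2'
      rw [toBase_j] at e1 e2
      have hp : P.toBase.pos 0 (r + 1) = x + 2 := by omega
      have hc : c = 0 := by
        by_cases hc1 : c = 2 * P.s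
        · subst hc1
          obtain ⟨f1, f2, f3, f4⟩ := P.rd_hub (x0 := x0) e1
          rw [hp, h2] at f2
          exact absurd f2 (P.ne _ 0 (by omega))
        · by_cases hc2 : c = 2 * P.s - 1
          · subst hc2
            have f0 := P.rd_emp e1
            obtain ⟨f1, f2, f3, f4⟩ := P.rd_hub (x0 := x0) (P.sep_hub e1 (by omega))
            rw [f0, hp, h2] at f2
            exact absurd f2 (P.ne _ 0 (by omega))
          · have h8 := (P.rd_small (x0 := x0) e1 (by omega)).2 0 (mo_pos c)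
            rw [show P.toBase.pos 0 (r + 1) + 0 = x + 2 by omega, h2] at h8
            have := (P.small _ _ 0 c (by omega) (by omega) h8).2
            omega
      subst hc
      have h9 := Base.FO_fc (b := P.toBase) 0 0 (r + 1) (by rw [toBase_j]; omega) e1
      rw [toBase_j, zero_add, show 0 + 1 + 2 * P.s + 2 * P.s = 2 * P.s + 1 + 2 * P.s by omega] at h9
      omega
    · rw [← h, h0] at h7
      exact absurd h7 (P.ne _ 0 (by omega))
  · obtain ⟨h5, h6⟩ := P.rd_small (x0 := x0) h2' h3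
    have h7 := h6 t ht
    rw [← h4, h0] at h7
    obtain ⟨rfl, h8⟩ := P.small _ _ 0 c (by omega) h3 h7
    have hc : c = 0 := by omega
    subst hc
    have h9 := Base.FO_fc (b := P.toBase) 0 0 r (by rw [toBase_j]; omega) h2'
    rw [toBase_j, zero_add, show 0 + 1 + 2 * P.s + 2 * P.s = 2 * P.s + 1 + 2 * P.s by omega] at h9
    omega

end OB

end Pool.Agent.Helper20.Rich
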