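import Pool.Agent.Helper95.RT.ORich

/-!
MP_0687f0_co: exponents of the limit word over the odd base.
-/

namespace Pool.Agent.Helper20.Rich

variable {α : Type*}

namespace OB

variable {P : OB α} {x0 : α}

/-- the first letter of a block -/
theorem first_let {r c : ℕ} {σ : Bool} (h : DD (2 * P.s) r = (σ, c)) :
    (c ≤ 2 * P.s - 2 ∧ P.toBase.u x0 (P.toBase.pos 0 r) = P.lam σ c) ∨
    (2 * P.s - 1 ≤ c ∧ P.toBase.u x0 (P.toBase.pos 0 r) = P.z) := by
  have hs := P.hs
  have hc := DD_le (2 * P.s) r
  rw [h] at hc
  simp only at hc
  by_cases h3 : c = 2 * P.s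
  · subst h3
    exact Or.inr ⟨by omega, (P.rd_hub h).2.1⟩
  · by_cases h4 : c = 2 * P.s - 1
    · subst h4
      have := P.rd_emp h
      rw [← this]
      exact Or.inr ⟨le_rfl, (P.rd_hub (P.sep_hub h (by omega))).2.1⟩
    · have := (P.rd_small (x0 := x0) h (by omega)).2 0 (mo_pos c)
      rw [add_zero] at this
      exact Or.inl ⟨by omega, this⟩

theorem first_zero {r c : ℕ} {σ : Bool} (h : DD (2 * P.s) r = (σ, c))
    (hu : P.toBase.u x0 (P.toBase.pos 0 r) = P.lam σ 0) : c = 0 := by
  have hs := P.hs
  rcases P.first_let (x0 := x0) h with ⟨h1, h2⟩ | ⟨h1, h2⟩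
  · rw [hu] at h2
    have := (P.small _ _ 0 c (by omega) h1 h2).2
    omega
  · rw [hu] at h2
    exact absurd h2 (P.ne _ 0 (by omega))

theorem lam_zero {c : ℕ} {σ : Bool} (hc : c ≤ 2 * P.s - 2) (h : P.lam σ c = P.lam σ 0) :
    c = 0 := by
  have := (P.small _ _ 0 c (by omega) hc h.symm).2
  omega

theorem nb {r c : ℕ} {σ : Bool} (hr : 1 ≤ r) (h : DD (2 * P.s) r = (σ, 2 * P.s))
    (h1 : DD (2 * P.s) (r - 1) = (!σ, c)) : ∃ c', DD (2 * P.s) (r + 1) = (!σ, c') ∧
      ((c = 0 ∧ 1 ≤ c') ∨ (1 ≤ c ∧ c' = 0) ∨ (c = 2 * P.s ∧ c' = 2 * P.s)) := by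
  obtain ⟨a, a', e1, e2, e3⟩ := Base.side_hub (b := P.toBase) hr h
  rw [toBase_j] at e1 e2 e3
  rw [h1] at e1
  obtain ⟨_, rfl⟩ := Prod.mk.inj e1
  refine ⟨a', e2, ?_⟩
  rcases e3 with h | h | ⟨h, h', _⟩
  · exact Or.inl h
  · exact Or.inr (Or.inl h)
  · exact Or.inr (Or.inr ⟨h, h'⟩)

/-- a window without hubs is short. -/
theorem short {i p n : ℕ} (hp : 1 ≤ p)
    (hm : ∀ t < n, P.toBase.u x0 (i + t) = P.toBase.u x0 (i + p + t))
    (hno : ∀ r τ, DD (2 * P.s) r = (τ, 2 * P.s) → i ≤ P.toBase.pos 0 r →
      P.toBase.pos 0 (r + 1) ≤ i + n → False) : n ≤ p := by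
  have hs := P.hs
  by_contra hcon
  push Not at hcon
  have M : ∀ t a b, t < n → a = i + t → b = i + p + t → P.toBase.u x0 a = P.toBase.u x0 b := by
    intro t a b ht h1 h2
    rw [h1, h2]
    exact hm t ht
  have N0 : ∀ σ, P.lam σ 0 ≠ P.z := fun σ => P.ne σ 0 (by omega)
  rcases P.kinds i with ⟨r, σ, h1, h2⟩ | ⟨r, σ, c, h1, h2, t0, ht0, h3⟩
  · obtain ⟨a1, a2, a3, a4⟩ := P.rd_hub (x0 := x0) h1
    rcases h2 with h2 | h2 | h2
    · -- the window starts with a hub
      have h5 : n ≤ 2 := by
        by_contra h6
        exact hno r σ h1 (by omega) (by omega)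
      have := M 0 (P.toBase.pos 0 r) (P.toBase.pos 0 r + 1) (by omega) (by omega) (by omega)
      rw [a2, a3] at this
      exact N0 _ this.symm
    · -- the window starts in the middle of a hub
      have b1 : P.toBase.u x0 i = P.lam (!σ) 0 := by rw [h2]; exact a3
      have b2 : P.toBase.u x0 (i + 1) = P.z := by
        rw [show i + 1 = P.toBase.pos 0 r + 2 by omega]; exact a4
      have hp2 : 2 ≤ p := by
        by_contra h6
        have := M 0 i (i + 1) (by omega) (by omega) (by omega)
        rw [b1, b2] at this
        exact N0 _ this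
      obtain ⟨c, e1, e2⟩ := Base.side_right (b := P.toBase) h1
      rw [toBase_j] at e1 e2
      have hq : P.toBase.pos 0 (r + 1) = i + 2 := by omega
      by_cases hc1 : c = 2 * P.s
      · subst hc1
        obtain ⟨f1, f2, f3, f4⟩ := P.rd_hub (x0 := x0) e1
        rw [hq] at f1 f2 f3 f4
        have hn4 : n ≤ 4 := by
          by_contra h6
          exact hno (r + 1) _ e1 (by omega) (by omega)
        have hp23 : p = 2 ∨ p = 3 := by omega
        rcases hp23 with rfl | rfl
        · have := M 0 i (i + 2) (by omega) (by omega) (by omega)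
          rw [b1, f2] at this
          exact N0 _ this
        · have := M 0 i (i + 2 + 1) (by omega) (by omega) (by omega)
          rw [b1, f3, Bool.not_not] at this
          exact P.lam_ne _ _ (by cases σ <;> simp) this
      · by_cases hc2 : c = 2 * P.s - 1
        · subst hc2
          have g0 := P.rd_emp e1
          have g1 := P.sep_hub e1 (by omega)
          rw [Bool.not_not] at g1
          obtain ⟨f1, f2, f3, f4⟩ := P.rd_hub (x0 := x0) g1
          rw [g0, hq] at f1 f2 f3 f4
          have hn4 : n ≤ 4 := by
            by_contra h6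
            exact hno (r + 1 + 1) _ g1 (by omega) (by omega)
          have hp23 : p = 2 ∨ p = 3 := by omega
          rcases hp23 with rfl | rfl
          · have := M 0 i (i + 2) (by omega) (by omega) (by omega)
            rw [b1, f2] at this
            exact N0 _ this
          · have := M 2 (i + 2) (i + 2 + 3) (by omega) (by omega) (by omega)
            rw [f2] at this
            obtain ⟨c', k1, k2⟩ := P.nb (r := r + 1 + 1) (by omega) g1
              (by rw [Nat.add_sub_cancel]; exact e1)
            have hc' : c' = 0 := by omega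
            subst hc'
            have k3 := (P.rd_small (x0 := x0) k1 (by omega)).2 0 (mo_pos 0)
            rw [f1, add_zero, ← this] at k3
            exact N0 _ k3.symm
        · have hc3 : c ≤ 2 * P.s - 2 := by omega
          obtain ⟨g0, g1⟩ := P.rd_small (x0 := x0) e1 hc3
          have g2 := P.sep_hub e1 (by omega)
          rw [Bool.not_not] at g2
          obtain ⟨f1, f2, f3, f4⟩ := P.rd_hub (x0 := x0) g2
          rw [hq] at g0 g1
          rw [g0] at f1 f2 f3 f4
          have hn' : n ≤ mo c + 4 := by
            by_contra h6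
            exact hno (r + 1 + 1) _ g2 (by omega) (by omega)
          obtain ⟨c', k1, k2⟩ := P.nb (r := r + 1 + 1) (by omega) g2
            (by rw [Nat.add_sub_cancel]; exact e1)
          rcases Nat.mod_two_eq_zero_or_one c with hpar | hpar
          · have hmo := mo_even hpar
            rw [hmo] at g0 g1 f1 f2 f3 f4 hn'
            have x1 := g1 0 (by omega)
            have x2 := g1 1 (by omega)
            rw [add_zero] at x1
            have hp25 : p = 2 ∨ p = 3 ∨ p = 4 ∨ p = 5 := by omega
            rcases hp25 with rfl | rfl | rfl | rfl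
            · have := M 1 (i + 1) (i + 2 + 1) (by omega) (by omega) (by omega)
              rw [b2, x2] at this
              exact P.ne _ _ hc3 this.symm
            · have := M 3 (i + 2 + 1) (i + 2 + 2 + 2) (by omega) (by omega) (by omega)
              rw [x2, f4] at this
              exact P.ne _ _ hc3 this
            · have := M 0 i (i + 2 + 2) (by omega) (by omega) (by omega)
              rw [b1, f2] at this
              exact N0 _ this
            · have := M 2 (i + 2) (i + 2 + 2 + 3) (by omega) (by omega) (by omega)
              rw [x1] at this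
              rcases k2 with ⟨k3, k4⟩ | ⟨k3, k4⟩ | ⟨k3, k4⟩
              · subst k3
                have := P.first_zero (x0 := x0) k1 (by rw [f1, ← this])
                omega
              · subst k4
                have k5 := (P.rd_small (x0 := x0) k1 (by omega)).2 0 (mo_pos 0)
                rw [f1, add_zero, ← this] at k5
                have := P.lam_zero hc3 k5
                omega
              · omega
          · have hmo := mo_odd hpar
            rw [hmo] at g0 g1 f1 f2 f3 f4 hn'
            have x1 := g1 0 (by omega)
            rw [add_zero] at x1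
            have hp24 : p = 2 ∨ p = 3 ∨ p = 4 := by omega
            rcases hp24 with rfl | rfl | rfl
            · have := M 0 i (i + 2) (by omega) (by omega) (by omega)
              rw [b1, x1] at this
              have := P.lam_zero hc3 this.symm
              omega
            · have := M 0 i (i + 2 + 1) (by omega) (by omega) (by omega)
              rw [b1, f2] at this
              exact N0 _ this
            · have := M 2 (i + 2) (i + 2 + 1 + 3) (by omega) (by omega) (by omega)
              rw [x1] at this
              rcases k2 with ⟨k3, k4⟩ | ⟨k3, k4⟩ | ⟨k3, k4⟩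
              · omega
              · subst k4
                have k5 := (P.rd_small (x0 := x0) k1 (by omega)).2 0 (mo_pos 0)
                rw [f1, add_zero, ← this] at k5
                have := P.lam_zero hc3 k5
                omega
              · omega
    · -- the window starts with the last letter of a hub
      have b1 : P.toBase.u x0 i = P.z := by rw [h2]; exact a4
      obtain ⟨c, e1, e2⟩ := Base.side_right (b := P.toBase) h1
      rw [toBase_j] at e1 e2
      have hq : P.toBase.pos 0 (r + 1) = i + 1 := by omega
      by_cases hc1 : c = 2 * P.s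
      · subst hc1
        obtain ⟨f1, f2, f3, f4⟩ := P.rd_hub (x0 := x0) e1
        rw [hq] at f1 f2 f3 f4
        have hn4 : n ≤ 3 := by
          by_contra h6
          exact hno (r + 1) _ e1 (by omega) (by omega)
        have hp12 : p = 1 ∨ p = 2 := by omega
        rcases hp12 with rfl | rfl
        · have := M 1 (i + 1) (i + 1 + 1) (by omega) (by omega) (by omega)
          rw [f2, f3] at this
          exact N0 _ this.symm
        · have := M 0 i (i + 1 + 1) (by omega) (by omega) (by omega)
          rw [b1, f3] at this
          exact N0 _ this.symm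
      · by_cases hc2 : c = 2 * P.s - 1
        · subst hc2
          have g0 := P.rd_emp e1
          have g1 := P.sep_hub e1 (by omega)
          rw [Bool.not_not] at g1
          obtain ⟨f1, f2, f3, f4⟩ := P.rd_hub (x0 := x0) g1
          rw [g0, hq] at f1 f2 f3 f4
          have hn4 : n ≤ 3 := by
            by_contra h6
            exact hno (r + 1 + 1) _ g1 (by omega) (by omega)
          have hp12 : p = 1 ∨ p = 2 := by omega
          rcases hp12 with rfl | rfl
          · have := M 1 (i + 1) (i + 1 + 1) (by omega) (by omega) (by omega)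
            rw [f2, f3] at this
            exact N0 _ this.symm
          · have := M 0 i (i + 1 + 1) (by omega) (by omega) (by omega)
            rw [b1, f3] at this
            exact N0 _ this.symm
        · have hc3 : c ≤ 2 * P.s - 2 := by omega
          obtain ⟨g0, g1⟩ := P.rd_small (x0 := x0) e1 hc3
          have g2 := P.sep_hub e1 (by omega)
          rw [Bool.not_not] at g2
          obtain ⟨f1, f2, f3, f4⟩ := P.rd_hub (x0 := x0) g2
          rw [hq] at g0 g1
          rw [g0] at f1 f2 f3 f4
          have hn' : n ≤ mo c + 3 := by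
            by_contra h6
            exact hno (r + 1 + 1) _ g2 (by omega) (by omega)
          have x1 := g1 0 (mo_pos c)
          rw [add_zero] at x1
          have hp2 : 2 ≤ p := by
            by_contra h6
            have := M 0 i (i + 1) (by omega) (by omega) (by omega)
            rw [b1, x1] at this
            exact P.ne _ _ hc3 this.symm
          rcases Nat.mod_two_eq_zero_or_one c with hpar | hpar
          · have hmo := mo_even hpar
            rw [hmo] at g0 g1 f1 f2 f3 f4 hn'
            have x2 := g1 1 (by omega)
            have hp24 : p = 2 ∨ p = 3 ∨ p = 4 := by omega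
            rcases hp24 with rfl | rfl | rfl
            · have := M 0 i (i + 1 + 1) (by omega) (by omega) (by omega)
              rw [b1, x2] at this
              exact P.ne _ _ hc3 this.symm
            · have := M 2 (i + 1 + 1) (i + 1 + 2 + 2) (by omega) (by omega) (by omega)
              rw [x2, f4] at this
              exact P.ne _ _ hc3 this
            · have := M 0 i (i + 1 + 2 + 1) (by omega) (by omega) (by omega)
              rw [b1, f3] at this
              exact N0 _ this.symm
          · have hmo := mo_odd hpar
            rw [hmo] at g0 g1 f1 f2 f3 f4 hn'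
            have hp23 : p = 2 ∨ p = 3 := by omega
            rcases hp23 with rfl | rfl
            · have := M 1 (i + 1) (i + 1 + 1 + 1) (by omega) (by omega) (by omega)
              rw [x1, f3] at this
              have := P.lam_zero hc3 this
              omega
            · have := M 0 i (i + 1 + 1 + 1) (by omega) (by omega) (by omega)
              rw [b1, f3] at this
              exact N0 _ this.symm
  · -- the window starts in a small block
    obtain ⟨g0, g1⟩ := P.rd_small (x0 := x0) h1 h2
    have g2 := P.sep_hub h1 (by omega)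
    obtain ⟨f1, f2, f3, f4⟩ := P.rd_hub (x0 := x0) g2
    rw [Bool.not_not] at f3
    have hm2 := mo_le c
    set q := P.toBase.pos 0 (r + 1) with hq
    have hn' : i + n < q + 3 := by
      by_contra h6
      exact hno (r + 1) _ g2 (by omega) (by omega)
    have x1 : P.toBase.u x0 i = P.lam σ c := by rw [h3]; exact g1 t0 ht0
    have ha : q = i + 1 ∨ q = i + 2 := by omega
    rcases ha with ha | ha
    · have hp12 : p = 1 ∨ p = 2 := by omega
      rcases hp12 with rfl | rfl
      · have := M 0 i q (by omega) (by omega) (by omega)
        rw [x1, f2] at this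
        exact P.ne _ _ h2 this
      · have m0 := M 0 i (q + 1) (by omega) (by omega) (by omega)
        rw [x1, f3] at m0
        have hc0 := P.lam_zero h2 m0
        subst hc0
        have m2 := M 2 (q + 1) (q + 3) (by omega) (by omega) (by omega)
        rw [f3] at m2
        obtain ⟨c', k1, k2⟩ := P.nb (r := r + 1) (by omega) g2
          (by rw [Nat.add_sub_cancel, Bool.not_not]; exact h1)
        rw [Bool.not_not] at k1
        have := P.first_zero (x0 := x0) k1 (by rw [f1, ← m2])
        omega
    · have x2 : P.toBase.u x0 (i + 1) = P.lam σ c := by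
        rw [show i + 1 = P.toBase.pos 0 r + (t0 + 1) by omega]
        exact g1 (t0 + 1) (by omega)
      have hp13 : p = 1 ∨ p = 2 ∨ p = 3 := by omega
      rcases hp13 with rfl | rfl | rfl
      · have := M 1 (i + 1) q (by omega) (by omega) (by omega)
        rw [x2, f2] at this
        exact P.ne _ _ h2 this
      · have := M 0 i q (by omega) (by omega) (by omega)
        rw [x1, f2] at this
        exact P.ne _ _ h2 this
      · have := M 1 (i + 1) (q + 2) (by omega) (by omega) (by omega)
        rw [x2, f4] at this
        exact P.ne _ _ h2 this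

theorem l_pow (n : ℕ) (h : 2 * P.s ≤ n) (m : ℕ) : 2 ^ m * P.toBase.l n ≤ P.toBase.l (n + m) :=
  Base.l_pow (b := P.toBase) h m

/-- the conditions on the lengths from two inequalities -/
theorem expHyp {ε : ℝ} (hε : 0 ≤ ε)
    (A1 : ∀ k, 2 * P.s ≤ k → (P.toBase.l (k + 2 * P.s) : ℝ) + 2 * P.toBase.S k ≤
      (1 + ε) * (P.toBase.l (k + 2 * P.s) + P.toBase.l k))
    (B : (2 : ℝ) ≤ ε * P.toBase.l (2 * P.s - 1 + 2 * P.s)) :
    P.toBase.ExpHyp x0 ε := by
  have hs := P.hs
  have hmono : ∀ k c, 2 * P.s ≤ k → (P.toBase.l k : ℝ) ≤ P.toBase.l (k + c) := by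
    intro k c hk
    exact_mod_cast P.toBase.l_mono hk (by omega)
  have hL3 : ∀ k, 3 ≤ P.toBase.l (k + 2 * P.s) := by
    intro k
    have := P.toBase.l_mono (m := 2 * P.s) (n := k + 2 * P.s) (by simp) (by omega)
    rwa [P.l_hub] at this
  have hLpos : ∀ k, (3 : ℝ) ≤ P.toBase.l (k + 2 * P.s) := by
    intro k
    exact_mod_cast hL3 k
  have hlnn : ∀ n, (0 : ℝ) ≤ P.toBase.l n := by intro n; positivity
  have hS1 : ∀ k, k < 2 * P.s → P.toBase.S k ≤ 1 := by
    intro k hk
    by_cases h : k = 2 * P.s - 1
    · rw [h, P.S_emp]
    · rw [P.S_small (by omega)]; omega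
  have hl2 : ∀ n, 2 * P.s ≤ n → (P.toBase.l (n + 1) : ℝ) =
      2 * P.toBase.l n + P.toBase.l (n - 2 * P.s) := by
    intro n hn
    have := P.toBase.l_succ (n := n) hn
    rw [toBase_j] at this
    exact_mod_cast this
  have A2 : ∀ n, 2 * P.s ≤ n → 2 * (P.toBase.S n : ℝ) ≤ (1 + ε) * P.toBase.l (n + 1) := by
    intro n hn
    obtain ⟨k, rfl⟩ : ∃ k, n = k + 2 * P.s := ⟨n - 2 * P.s, by omega⟩
    have h1 : (P.toBase.S (k + 2 * P.s) : ℝ) = P.toBase.l (k + 2 * P.s) + P.toBase.S k := by
      have := Base.S_ge (b := P.toBase) (n := k + 2 * P.s) (by simp)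
      rw [toBase_j, Nat.add_sub_cancel] at this
      exact_mod_cast this
    have h2 := hl2 (k + 2 * P.s) hn
    rw [Nat.add_sub_cancel] at h2
    have h3 := hlnn k
    have h4 := hLpos k
    rw [h1, h2]
    rcases Nat.lt_or_ge k (2 * P.s) with h | h
    · by_cases h5 : k = 2 * P.s - 1
      · subst h5
        rw [P.S_emp]
        push_cast
        nlinarith
      · rw [P.S_small (by omega)]
        push_cast
        nlinarith
    · have := A1 k h
      nlinarith
  refine ⟨natBase, hε, ?_, ?_, ?_, ?_, ?_, ?_⟩
  · intro k c c' hcc hc'
    rw [toBase_j] at hc' ⊢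
    have hL := hLpos k
    rcases Nat.lt_or_ge (k + c') (2 * P.s) with h | h
    · have h1 : P.toBase.TT k c c' ≤ 1 := by
        unfold Base.TT
        rw [toBase_j, if_pos h]
        split_ifs <;> omega
      have h2 : (P.toBase.TT k c c' : ℝ) ≤ 1 := by exact_mod_cast h1
      nlinarith
    · have h1 : P.toBase.TT k c c' = P.toBase.S (k + c) := by
        unfold Base.TT
        rw [toBase_j, if_neg (by omega)]
      rw [h1]
      rcases Nat.lt_or_ge (k + c) (2 * P.s) with h2 | h2
      · have h3 : (P.toBase.S (k + c) : ℝ) ≤ 1 := by exact_mod_cast hS1 _ h2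
        nlinarith
      · have h3 := A2 (k + c) h2
        have h4 : (P.toBase.l (k + c + 1) : ℝ) ≤ P.toBase.l (k + 2 * P.s) := by
          exact_mod_cast P.toBase.l_mono (show P.toBase.j ≤ k + c + 1 by rw [toBase_j]; omega)
            (show k + c + 1 ≤ k + 2 * P.s by omega)
        nlinarith
  · intro k
    rw [toBase_j]
    have hL := hLpos k
    have hl := hlnn k
    rcases Nat.lt_or_ge k (2 * P.s) with h | h
    · have h3 : (P.toBase.S k : ℝ) ≤ 1 := by exact_mod_cast hS1 _ h
      nlinarith
    · have := A1 k h
      linarith
  · intro k c hc hcj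
    rw [toBase_j] at hcj
    by_cases h : k = 2 * P.s - 1
    · have h1 := P.toBase.l_pos (n := k + c) (by rw [toBase_j]; omega)
      omega
    · rcases Nat.lt_or_ge k (2 * P.s) with h1 | h1
      · rw [P.l_small (c := k) (by omega)]
        have := mo_pos k
        omega
      · have h2 := P.toBase.l_pos (n := k) h1
        omega
  · intro k c hc hcj
    rw [toBase_j] at hcj ⊢
    have hL := hLpos k
    have hl := hlnn (k + c)
    rcases Nat.lt_or_ge k (2 * P.s) with h | h
    · have h1 : 2 * P.toBase.TT k 0 c ≤ P.toBase.l (k + c) := by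
        unfold Base.TT
        rw [toBase_j]
        split_ifs with h2 h3
        · have h4 : c = 1 := by omega
          subst h4
          rw [P.l_small (c := k + 1) (by omega), mo_even (by omega)]
        · omega
        · rw [add_zero]
          by_cases h4 : k = 2 * P.s - 1
          · have := P.toBase.l_mono (m := 2 * P.s) (n := k + c) (by simp) (by omega)
            rw [P.l_hub] at this
            have := hS1 k h
            omega
          · rw [P.S_small (by omega)]
            omega
      have h2 : 2 * (P.toBase.TT k 0 c : ℝ) ≤ P.toBase.l (k + c) := by exact_mod_cast h1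
      nlinarith
    · have h1 : P.toBase.TT k 0 c = P.toBase.S k := by
        unfold Base.TT
        rw [toBase_j, if_neg (by omega), add_zero]
      rw [h1]
      have h1 := A1 k h
      have h2 := hmono k c h
      nlinarith
  · intro k x c hx hxj hc hcj hne
    rw [toBase_j] at hxj hcj ⊢
    have hL := hLpos k
    have hl := hlnn k
    rcases Nat.lt_or_ge k (2 * P.s) with h | h
    · by_cases h4 : k = 2 * P.s - 1
      · subst h4
        have e1 : ∀ y, 1 ≤ y → P.toBase.TT (2 * P.s - 1) 0 y = 1 := by
          intro y hy
          unfold Base.TT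
          rw [toBase_j, if_neg (by omega), add_zero, P.S_emp]
        rw [e1 x hx, e1 c hc, P.l_emp]
        push_cast
        nlinarith
      · have h1 : P.toBase.TT k 0 x + P.toBase.TT k 0 c ≤ P.toBase.l k := by
          have e1 : ∀ y, 1 ≤ y → P.toBase.TT k 0 y = 0 ∨
              (P.toBase.TT k 0 y = 1 ∧ y = 1 ∧ k % 2 = 1) := by
            intro y hy
            unfold Base.TT
            rw [toBase_j]
            split_ifs with h1 h2
            · right; omega
            · left; rfl
            · left
              rw [add_zero, P.S_small (by omega)]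
          have e2 := P.l_small (c := k) (by omega)
          have e3 := mo_pos k
          rcases e1 x hx with h1 | ⟨h1, h2, h3⟩ <;> rcases e1 c hc with h5 | ⟨h5, h6, h7⟩ <;> omega
        have h2 : (P.toBase.TT k 0 x : ℝ) + P.toBase.TT k 0 c ≤ P.toBase.l k := by
          exact_mod_cast h1
        nlinarith
    · have e1 : ∀ y, 1 ≤ y → P.toBase.TT k 0 y = P.toBase.S k := by
        intro y hy
        unfold Base.TT
        rw [toBase_j, if_neg (by omega), add_zero]
      rw [e1 x hx, e1 c hc]
      have h1 := A1 k h
      linarith
  · intro i p n hp hm hno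
    have h1 : n ≤ p := short hp hm hno
    have h2 : (n : ℝ) ≤ p := by exact_mod_cast h1
    have h3 : (0 : ℝ) ≤ p := by positivity
    nlinarith

end OB

end Pool.Agent.Helper20.Rich
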