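import Pool.Agent.Helper95.RT.OExp

/-!
MP_0687f0_co: the threshold for an odd number of letters, from one inequality on the lengths.
-/

open scoped ENNReal

namespace Pool.Agent.Helper20.Rich

/-- the letters of the odd base -/
def lamO (s : ℕ) (σ : Bool) (c : ℕ) : ℕ :=
  if c ≤ 2 * s - 2 then 2 * ((c + 1) / 2) + 1 + (if σ = true then 1 else 0) else 0

theorem lamO_lt {s : ℕ} (hs : 2 ≤ s) (σ : Bool) (c : ℕ) : lamO s σ c < 2 * s + 1 := by
  unfold lamO
  split_ifs <;> omega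

/-- the base over `Fin (2 s + 1)` -/
def OF (s : ℕ) (hs : 2 ≤ s) : OB (Fin (2 * s + 1)) where
  s := s
  z := ⟨0, by omega⟩
  lam σ c := ⟨lamO s σ c, lamO_lt hs σ c⟩
  hs := hs
  ne σ c hc h := by
    have h1 := Fin.mk.inj h
    unfold lamO at h1
    rw [if_pos hc] at h1
    omega
  dbl σ c hc hc' := by
    apply Fin.ext
    show lamO s σ (c + 1) = lamO s σ c
    unfold lamO
    rw [if_pos hc', if_pos (show c ≤ 2 * s - 2 by omega)]
    have : (c + 1 + 1) / 2 = (c + 1) / 2 := by omega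
    rw [this]
  small σ τ c d hcd hd h := by
    have h1 := Fin.mk.inj h
    unfold lamO at h1
    rw [if_pos hd, if_pos (by omega)] at h1
    cases σ <;> cases τ <;> simp at h1 ⊢ <;> omega

theorem OF_surj {s : ℕ} (hs : 2 ≤ s) (x0 : Fin (2 * s + 1)) :
    Function.Surjective ((OF s hs).toBase.u x0) := by
  intro v
  have hv := v.2
  rcases Nat.eq_zero_or_pos (v : ℕ) with h | h
  · refine ⟨0, ?_⟩
    rw [OB.u_zero]
    exact Fin.ext h.symm
  · have key : ∀ σ c, c ≤ 2 * s - 2 → lamO s σ c = v → ∃ i, (OF s hs).toBase.u x0 i = v := by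
      intro σ c h2 h3
      obtain ⟨r, hr⟩ := Base.exists_block (b := (OF s hs).toBase) σ (c := c)
        (by rw [OB.toBase_j]; show c ≤ 2 * s; omega)
      have h4 := ((OF s hs).rd_small (x0 := x0) hr h2).2 0 (mo_pos c)
      exact ⟨_, h4.trans (Fin.ext h3)⟩
    rcases Nat.mod_two_eq_zero_or_one v with h' | h'
    · apply key true (2 * ((v - 1) / 2)) (by omega)
      unfold lamO
      rw [if_pos (by omega)]
      simp
      omega
    · apply key false (2 * ((v - 1) / 2)) (by omega)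
      unfold lamO
      rw [if_pos (by omega)]
      simp
      omega

theorem bern {x : ℝ} (hx : 0 ≤ x) (n : ℕ) : (1 + x) ^ n * (1 - n * x) ≤ 1 := by
  induction n with
  | zero => simp
  | succ n ih =>
    have h1 : (0 : ℝ) ≤ (1 + x) ^ n := by positivity
    have h2 : (1 + x) ^ (n + 1) * (1 - ((n + 1 : ℕ) : ℝ) * x) =
        (1 + x) ^ n * (1 - n * x) - (1 + x) ^ n * ((n + 1) * x ^ 2) := by
      push_cast
      ring
    rw [h2]
    have h3 : (0 : ℝ) ≤ (1 + x) ^ n * ((n + 1) * x ^ 2) := by positivity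
    linarith

theorem mu_pow_le {μ : ℝ} (h2 : 2 < μ) {j : ℕ} (hμ : μ ^ (j + 1) = 2 * μ ^ j + 1) :
    2 ^ j ≤ μ ^ j ∧ μ ^ j ≤ 2 ^ j + j / 2 := by
  have h0 : (0 : ℝ) < μ ^ j := by positivity
  refine ⟨by gcongr, ?_⟩
  have h1 : μ = 2 * (1 + 1 / (2 * μ ^ j)) := by
    have : μ ^ j * μ = μ ^ j * (2 * (1 + 1 / (2 * μ ^ j))) := by
      field_simp
      linear_combination hμ
    exact mul_left_cancel₀ h0.ne' this
  have h3 := bern (x := 1 / (2 * μ ^ j)) (by positivity) j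
  have h4 : μ ^ j = 2 ^ j * (1 + 1 / (2 * μ ^ j)) ^ j := by
    rw [← mul_pow, ← h1]
  have h5 : μ ^ j * (1 - j * (1 / (2 * μ ^ j))) ≤ 2 ^ j := by
    calc μ ^ j * (1 - j * (1 / (2 * μ ^ j))) =
        2 ^ j * ((1 + 1 / (2 * μ ^ j)) ^ j * (1 - j * (1 / (2 * μ ^ j)))) := by
          rw [← mul_assoc, ← h4]
      _ ≤ 2 ^ j * 1 := mul_le_mul_of_nonneg_left h3 (by positivity)
      _ = _ := mul_one _
  have h6 : μ ^ j * (1 - j * (1 / (2 * μ ^ j))) = μ ^ j - j / 2 := by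
    field_simp
  linarith

namespace OB

variable {α : Type*} {P : OB α}

theorem l_lower (i : ℕ) (hi : i ≤ 2 * P.s - 1) :
    14 * 2 ^ i ≤ 3 * P.toBase.l (2 * P.s + i) + (if i % 2 = 0 then 5 else 4) := by
  have hs := P.hs
  induction i with
  | zero => rw [add_zero, P.l_hub]; norm_num
  | succ i ih =>
    have h1 := ih (by omega)
    have h2 := P.l_step i
    rw [show i + 1 + 2 * P.s = 2 * P.s + (i + 1) by omega,
      show i + 2 * P.s = 2 * P.s + i by omega, P.l_small (c := i) (by omega)] at h2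
    rw [h2, pow_succ]
    rcases Nat.mod_two_eq_zero_or_one i with h | h
    · rw [mo_even h]
      rw [if_pos h] at h1
      rw [if_neg (by omega)]
      omega
    · rw [mo_odd h]
      rw [if_neg (by omega)] at h1
      rw [if_pos (by omega)]
      omega

theorem cond_B {μ : ℝ} (h2 : 2 < μ) (hμ : μ ^ (2 * P.s + 1) = 2 * μ ^ (2 * P.s) + 1) :
    (2 : ℝ) ≤ 1 / (μ ^ (2 * P.s) - 1) * P.toBase.l (2 * P.s - 1 + 2 * P.s) := by
  have hs := P.hs
  obtain ⟨h3, h4⟩ := mu_pow_le h2 hμ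
  have h5 := P.l_lower (2 * P.s - 1) le_rfl
  rw [if_neg (by omega), show 2 * P.s + (2 * P.s - 1) = 2 * P.s - 1 + 2 * P.s by omega] at h5
  have h6 : 2 ^ (2 * P.s) = 2 * 2 ^ (2 * P.s - 1) := by
    rw [← pow_succ']
    congr 1
    omega
  have h7 : 7 * 2 ^ (2 * P.s) ≤ 3 * P.toBase.l (2 * P.s - 1 + 2 * P.s) + 4 := by
    rw [h6]; omega
  have h8 : (7 : ℝ) * 2 ^ (2 * P.s) ≤ 3 * P.toBase.l (2 * P.s - 1 + 2 * P.s) + 4 := by
    exact_mod_cast h7
  have h9 : ∀ m, 3 * (m + 4) ≤ 2 ^ (m + 4) + 2 := by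
    intro m
    induction m with
    | zero => norm_num
    | succ m ih =>
      have : 2 ^ (m + 1 + 4) = 2 * 2 ^ (m + 4) := by ring
      have h : 1 ≤ 2 ^ m := Nat.one_le_two_pow
      have h' : 2 ^ (m + 4) = 16 * 2 ^ m := by ring
      omega
  have h10 : 3 * (2 * P.s) ≤ 2 ^ (2 * P.s) + 2 := by
    have := h9 (2 * P.s - 4)
    rwa [show 2 * P.s - 4 + 4 = 2 * P.s by omega] at this
  have h11 : (3 : ℝ) * ((2 * P.s : ℕ) : ℝ) ≤ 2 ^ (2 * P.s) + 2 := by exact_mod_cast h10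
  have h12 : (0 : ℝ) < μ ^ (2 * P.s) - 1 := by
    have : (1 : ℝ) < μ ^ (2 * P.s) := one_lt_pow₀ (by linarith) (by omega)
    linarith
  rw [one_div, inv_mul_eq_div, le_div_iff₀ h12]
  linarith

end OB

/-- the threshold for an odd number of letters -/
theorem RT_odd {s : ℕ} (hs : 2 ≤ s) {μ : ℝ} (h2 : 2 < μ)
    (hμ : μ ^ (2 * s + 1) = 2 * μ ^ (2 * s) + 1)
    (A1 : ∀ k, 2 * s ≤ k → ((OF s hs).toBase.l (k + 2 * s) : ℝ) + 2 * (OF s hs).toBase.S k ≤
      (1 + 1 / (μ ^ (2 * s) - 1)) * ((OF s hs).toBase.l (k + 2 * s) + (OF s hs).toBase.l k)) :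
    RT (2 * s + 1) ≤ ENNReal.ofReal (1 + 1 / (3 - μ)) := by
  have hμ1 : 1 < μ ^ (2 * s) := one_lt_pow₀ (by linarith) (by omega)
  have hμ3 : μ < 3 := by
    by_contra hcon
    push Not at hcon
    have h1 : μ ^ (2 * s) * (μ - 2) = 1 := by linear_combination hμ
    nlinarith
  have e : 1 + 1 / (3 - μ) = 2 + 1 / (μ ^ (2 * s) - 1) := by
    have h1 : 3 - μ ≠ 0 := by linarith
    have h3 : μ ^ (2 * s) - 1 ≠ 0 := by linarith
    field_simp
    linear_combination hμ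
  rw [e]
  apply RT_le (OF s hs).toBase ⟨0, by omega⟩
  · have hε : (0 : ℝ) ≤ 1 / (μ ^ (2 * s) - 1) := by
      apply div_nonneg zero_le_one
      linarith
    have hB := OB.cond_B (P := OF s hs) h2 hμ
    exact OB.expHyp (P := OF s hs) hε A1 hB
  · exact OB.rich
  · exact OF_surj _ _

end Pool.Agent.Helper20.Rich
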