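import Pool.Agent.Helper95.RT.OBase

/-!
MP_0687f0_co: the limit word over the odd base is rich.
-/

namespace Pool.Agent.Helper20.Rich

variable {α : Type*}

namespace OB

variable {P : OB α} {x0 : α}

theorem l_step (K : ℕ) : P.toBase.l (K + 1 + 2 * P.s) =
    2 * P.toBase.l (K + 2 * P.s) + P.toBase.l K := by
  have := P.toBase.l_succ (n := K + 2 * P.s) (by simp)
  rw [toBase_j, Nat.add_sub_cancel] at this
  rw [← this]
  congr 1
  omega

theorem u_zero : P.toBase.u x0 0 = P.z := by
  have h := P.rd_hub (x0 := x0) (r := 0) (σ := false) (DD_zero _)
  rw [Base.pos_zero] at h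
  exact h.2.1

theorem u_one : P.toBase.u x0 1 = P.lam true 0 := by
  have h := P.rd_hub (x0 := x0) (r := 0) (σ := false) (DD_zero _)
  rw [Base.pos_zero] at h
  exact h.2.2.1

theorem u_two : P.toBase.u x0 2 = P.z := by
  have h := P.rd_hub (x0 := x0) (r := 0) (σ := false) (DD_zero _)
  rw [Base.pos_zero] at h
  exact h.2.2.2

theorem u_three : P.toBase.u x0 3 = P.lam true 0 := by
  have h := (P.rd_small (x0 := x0) (r := 1) (σ := true) (c := 0) (DD_one _) (by omega)).2 0
    (mo_pos 0)
  have h2 := (P.rd_hub (x0 := x0) (r := 0) (σ := false) (DD_zero _)).1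
  rw [Base.pos_zero] at h2
  rw [show P.toBase.pos 0 1 = 3 by simpa using h2] at h
  exact h

/-- the beginning of the block `1` of level `K` -/
theorem rich_t {K N : ℕ} (hK : K < 2 * P.s) (hN : P.toBase.l (K + 2 * P.s) < N)
    (hN' : N ≤ P.toBase.l (K + 1 + 2 * P.s)) : New (P.toBase.u x0) N := by
  have hs := P.hs
  have hL := l_step (P := P) K
  have hl3 : P.toBase.l (0 + 2 * P.s) = 3 := by rw [zero_add]; exact P.l_hub
  by_cases hKe : K = 2 * P.s - 1
  · -- the empty separator
    subst hKe
    rw [P.l_emp] at hL
    set A := P.toBase.l (2 * P.s - 1 + 2 * P.s) with hA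
    have hA1 : 1 ≤ A := P.toBase.l_pos (by simp)
    obtain ⟨y, rfl⟩ : ∃ y, N = A + y := ⟨N - A, by omega⟩
    refine ⟨A - y, by omega, ?_, ?_⟩
    · intro t ht
      apply Base.u_reflect x0 (2 * P.s - 1 + 1)
      rw [toBase_j, hL]
      omega
    · intro a' ha' hm
      have e1 : P.toBase.u x0 (A - 1) = P.z := by
        rw [Base.u_reflect x0 (b := P.toBase) (2 * P.s - 1) (y := A - 1) (z := 0)
          (by rw [toBase_j]; omega)]
        exact u_zero
      have e2 : P.toBase.u x0 A = P.z := by
        rw [Base.u_reflect x0 (b := P.toBase) (2 * P.s - 1 + 1) (y := A) (z := A - 1)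
          (by rw [toBase_j, hL]; omega)]
        exact e1
      have h1 := hm (y - 1) (by omega)
      have h2 := hm y (by omega)
      rw [show A - y + (y - 1) = A - 1 by omega, e1] at h1
      rw [show A - y + y = A by omega, e2] at h2
      have := first_zz (P := P) (x0 := x0) (x := a' + (y - 1)) h1
        (by rw [show a' + (y - 1) + 1 = a' + y by omega]; exact h2)
      omega
  · have hK' : K ≤ 2 * P.s - 2 := by omega
    have hlK := P.l_small hK'
    have hm1 := mo_pos K
    have hm2 := mo_le K
    rcases Nat.lt_or_ge N (P.toBase.l (K + 2 * P.s) + P.toBase.l K) with h1 | h1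
    · -- inside a double
      have hm : mo K = 2 := by omega
      have hKev : K % 2 = 0 := by
        by_contra hcon
        rw [mo_odd (by omega)] at hm
        omega
      obtain rfl : N = P.toBase.l (K + 2 * P.s) + 1 := by omega
      rcases Nat.eq_zero_or_pos K with h0 | h0
      · subst h0
        rw [hl3]
        refine ⟨1, by omega, ?_, ?_⟩
        · intro t ht
          have : t = 0 ∨ t = 1 ∨ t = 2 := by omega
          rcases this with rfl | rfl | rfl
          · show P.toBase.u x0 1 = P.toBase.u x0 3
            rw [u_one, u_three]
          · rfl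
          · show P.toBase.u x0 3 = P.toBase.u x0 1
            rw [u_one, u_three]
        · intro a' ha' hm'
          obtain rfl : a' = 0 := by omega
          have := hm' 0 (by omega)
          rw [add_zero, add_zero, u_zero, u_one] at this
          exact P.ne _ 0 (by omega) this.symm
      · obtain ⟨K, rfl⟩ : ∃ K', K = K' + 1 := ⟨K - 1, by omega⟩
        have := Base.new_B1 (b := P.toBase) (x0 := x0) natBase (k := K) (v := 1) le_rfl
          (by omega) (by
            rw [P.W_small true (by omega), P.W_small true (by omega), P.ow_small _ hK',
              P.ow_small _ (by omega), mo_even hKev, mo_odd (c := K) (by omega),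
              P.dbl true K (by omega) hK']
            simp)
        exact this
    · obtain ⟨x, rfl⟩ : ∃ x, N = P.toBase.l (K + 2 * P.s) + P.toBase.l K + x :=
        ⟨N - (P.toBase.l (K + 2 * P.s) + P.toBase.l K), by omega⟩
      apply Base.new_ct (b := P.toBase) (k := K) (by rw [toBase_j]; omega) (by omega)
        (by rw [toBase_j]; exact hL)
      intro z hz
      exact first_t hK' hz

/-- the first block of index `j` on the second side -/
theorem rich_j {M : ℕ} (h1 : P.toBase.l (2 * P.s + 2 * P.s) < M)
    (h2 : M < P.toBase.l (2 * P.s + 2 * P.s) + P.toBase.l (2 * P.s)) :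
    New (P.toBase.u x0) M := by
  have hs := P.hs
  rw [P.l_hub] at h2
  have h3 : M = P.toBase.l (2 * P.s + 2 * P.s) + 1 ∨ M = P.toBase.l (2 * P.s + 2 * P.s) + 2 := by
    omega
  rcases h3 with rfl | rfl
  · have h4 := Base.new_B1 (b := P.toBase) (x0 := x0) natBase (k := 2 * P.s - 1) (v := 1) le_rfl
      (by rw [show 2 * P.s - 1 + 1 = 2 * P.s by omega, P.l_hub]; omega) (by
        rw [show 2 * P.s - 1 + 1 = 2 * P.s by omega, P.W_small true le_rfl,
          P.W_small true (by omega), ow_emp, ow_hub]
        refine List.IsPrefix.trans ?_ (List.prefix_append_right_inj _ |>.2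
          (P.toBase.W_isPre (σ := false) (m := 2 * P.s) (by simp) (by rw [toBase_j]; omega)))
        rw [P.W_small false le_rfl, ow_hub]
        simp)
    rw [show 2 * P.s - 1 + 1 + P.toBase.j = 2 * P.s + 2 * P.s by rw [toBase_j]; omega] at h4
    exact h4
  · apply new_one_letter (N := P.toBase.l (2 * P.s + 2 * P.s) + 1)
    have h4 : P.toBase.u x0 (P.toBase.l (2 * P.s + 2 * P.s) + 1) = P.lam false 0 := by
      have h5 := Base.pos_block x0 (b := P.toBase) (2 * P.s) 1
      rw [DD_one, Base.pos_one, add_zero, P.W_small true le_rfl, ow_hub, toBase_j] at h5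
      exact h5.get (t := 1) (by simp)
    intro z hz h6
    rw [h4] at h6
    have := first_a (P := P) h6
    omega

theorem W_start (σ : Bool) {n : ℕ} (hn : 2 * P.s ≤ n) : (P.toBase.W σ n)[0]? = some P.z := by
  apply getElem?_of_isPre (P.toBase.W_isPre (σ := σ) le_rfl hn)
  rw [toBase_j, P.W_small σ le_rfl, ow_hub]
  rfl

/-- first letter next to a hub -/
theorem nw_first {κ x : ℕ} {a : α} (hκ : κ % 2 = 1) (hκj : κ + 1 ≤ 2 * P.s - 2)
    (h : a = P.lam false (κ + 1))
    (hu : ∀ a', (P.toBase.nw κ true x)[0]? = some a' → a = a') :
    x = 0 ∨ x = 1 := by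
  have hs := P.hs
  rcases Nat.lt_or_ge (κ + x) (2 * P.s) with h2 | h2
  · by_cases h5 : κ + x = 2 * P.s - 1
    · exfalso
      have h3 := hu P.z (by
        unfold Base.nw
        rw [Bool.not_true, h5, P.W_small false (by omega), ow_emp, List.nil_append,
          toBase_j, if_pos (by omega)]
        exact W_start true (by omega))
      rw [h] at h3
      exact P.ne _ _ hκj h3
    · have h3 := hu (P.lam false (κ + x)) (by
        unfold Base.nw
        rw [Bool.not_true, P.W_small false h2.le]
        exact P.get_small false (by omega) (mo_pos _) _)
      rw [h] at h3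
      rcases Nat.lt_or_ge x 1 with h4 | h4
      · omega
      · have := (P.small false false (κ + 1) (κ + x) (by omega) (by omega) h3).2
        omega
  · exfalso
    have h4 := hu P.z (by
      unfold Base.nw
      apply getElem?_of_isPre (List.prefix_append _ _)
      exact W_start _ h2)
    rw [h] at h4
    exact P.ne _ _ hκj h4

theorem rich_f {r M : ℕ} (hr : r < 2 * P.s)
    (hM : P.toBase.l (r + 2 * P.s + 1 + 2 * P.s) + P.toBase.l (r + 2 * P.s) < M)
    (hM' : M < P.toBase.l (r + 2 * P.s + 1 + 2 * P.s) + P.toBase.l (r + 2 * P.s + 1)) :
    New (P.toBase.u x0) M := by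
  have hs := P.hs
  obtain ⟨hblk, hl⟩ := Base.blk_f (b := P.toBase) (x0 := x0) r
  rw [toBase_j] at hblk hl
  set Q := P.toBase.l (r + 2 * P.s + 1 + 2 * P.s) with hQ
  set A := P.toBase.l (r + 2 * P.s) with hA
  have hA1 : 1 ≤ A := P.toBase.l_pos (by simp)
  by_cases hre : r = 2 * P.s - 1
  · -- the empty separator
    subst hre
    rw [P.l_emp] at hl
    rcases Nat.lt_or_ge M (Q + A + 2) with h1 | h1
    · obtain rfl : M = Q + A + 1 := by omega
      have h4 := Base.new_B1 (b := P.toBase) (x0 := x0) natBase (k := 2 * P.s - 1 + 2 * P.s)
        (v := A + 1) (by omega) (by omega) (by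
          have hW := P.toBase.W_succ (σ := true) (n := 2 * P.s - 1 + 2 * P.s) (by simp)
          rw [toBase_j, Nat.add_sub_cancel, P.W_small (!true) (by omega), ow_emp, List.append_nil]
            at hW
          rw [hW, List.take_append, Base.length_W, ← hA, Nat.add_sub_cancel_left,
            List.take_of_length_le (by rw [Base.length_W]; omega), List.prefix_append_right_inj]
          have e1 : (P.toBase.W true (2 * P.s - 1 + 2 * P.s)).take 1 = [P.z] := by
            have := W_start (P := P) true (n := 2 * P.s - 1 + 2 * P.s) (by omega)
            rw [List.take_one, List.head?_eq_getElem?, this]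
            rfl
          have e2 : (P.toBase.W false (2 * P.s - 1 + 2 * P.s + P.toBase.j)).take 1 = [P.z] := by
            have := W_start (P := P) false (n := 2 * P.s - 1 + 2 * P.s + P.toBase.j) (by omega)
            rw [List.take_one, List.head?_eq_getElem?, this]
            rfl
          rw [e1, ← e2]
          exact List.take_prefix _ _)
      rw [toBase_j] at h4
      exact h4
    · obtain ⟨y, rfl⟩ : ∃ y, M = Q + A + y := ⟨M - (Q + A), by omega⟩
      have hr0 := fun y z h => Base.refl_f (b := P.toBase) (x0 := x0) (2 * P.s - 1) (y := y)
        (z := z) h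
      rw [toBase_j] at hr0
      rw [← hQ, hl] at hr0
      -- the letters around the centre
      have hT : Occ (P.toBase.u x0) (Q + A) (P.toBase.W true (2 * P.s - 1 + 2 * P.s)) := by
        have h3 := (occ_append.1 hblk).2
        rw [List.length_append, Base.length_W, Base.length_W, P.l_emp, add_zero] at h3
        exact h3
      have hpre : P.toBase.W true (2 * P.s) <+: P.toBase.W true (2 * P.s - 1 + 2 * P.s) :=
        P.toBase.W_isPre (by simp) (by omega)
      rw [P.W_small true le_rfl, ow_hub] at hpre
      have c1 : P.toBase.u x0 (Q + A) = P.z := by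
        have := hT.get (t := 0) (a := P.z) (getElem?_of_isPre hpre (by simp))
        rwa [add_zero] at this
      have c2 : P.toBase.u x0 (Q + A + 1) = P.lam false 0 :=
        hT.get (t := 1) (getElem?_of_isPre hpre (by simp))
      have c0 : P.toBase.u x0 (Q + A - 1) = P.z := by
        have := hr0 (A - 1) A (by omega)
        rw [show Q + (A - 1) = Q + A - 1 by omega] at this
        rw [this, c1]
      have hA2 : 3 ≤ A := by
        have := P.toBase.l_mono (m := 2 * P.s) (n := 2 * P.s - 1 + 2 * P.s) (by simp) (by omega)
        rw [P.l_hub] at this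
        exact this
      have cm : P.toBase.u x0 (Q + A - 2) = P.lam false 0 := by
        have := hr0 (A - 2) (A + 1) (by omega)
        rw [show Q + (A - 2) = Q + A - 2 by omega] at this
        rw [this, ← Nat.add_assoc, c2]
      refine ⟨Q + A - y, by omega, ?_, ?_⟩
      · intro t ht
        have := hr0 (A - y + t) (A + y - 1 - t) (by omega)
        rw [show Q + A - y + t = Q + (A - y + t) by omega, this]
        congr 1
        omega
      · intro a' ha' hm
        have m1 := hm (y - 2) (by omega)
        have m2 := hm (y - 1) (by omega)
        have m3 := hm y (by omega)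
        have m4 := hm (y + 1) (by omega)
        rw [show Q + A - y + (y - 2) = Q + A - 2 by omega, cm] at m1
        rw [show Q + A - y + (y - 1) = Q + A - 1 by omega, c0] at m2
        rw [show Q + A - y + y = Q + A by omega, c1] at m3
        rw [show Q + A - y + (y + 1) = Q + A + 1 by omega, c2] at m4
        have := first_azza (P := P) (x0 := x0) (x := a' + (y - 2)) m1
          (by rw [show a' + (y - 2) + 1 = a' + (y - 1) by omega]; exact m2)
          (by rw [show a' + (y - 2) + 2 = a' + y by omega]; exact m3)
          (by rw [show a' + (y - 2) + 3 = a' + (y + 1) by omega]; exact m4)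
        omega
  · have hr' : r ≤ 2 * P.s - 2 := by omega
    have hlr := P.l_small hr'
    have hm1 := mo_pos r
    have hm2 := mo_le r
    have hmid : Occ (P.toBase.u x0) (Q + A) (P.toBase.W false r) := by
      have h3 := (occ_append.1 (occ_append.1 hblk).1).2
      rwa [Base.length_W] at h3
    rcases Nat.lt_or_ge M (Q + A + P.toBase.l r) with h1 | h1
    · -- inside a double
      have hm : mo r = 2 := by omega
      have hrev : r % 2 = 0 := by
        by_contra hcon
        rw [mo_odd (by omega)] at hm
        omega
      obtain rfl : M = Q + A + 1 := by omega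
      have hc : P.toBase.u x0 (Q + A) = P.lam false r := by
        rw [P.W_small false (by omega), P.ow_small _ hr'] at hmid
        have := hmid.get (t := 0) (a := P.lam false r)
          (by rw [List.getElem?_replicate_of_lt (mo_pos _)])
        rwa [add_zero] at this
      rcases Nat.eq_zero_or_pos r with h0 | h0
      · -- the word `a z a`
        subst h0
        have hA3 : A = 3 := by rw [hA, zero_add]; exact P.l_hub
        have hhub := (occ_append.1 (occ_append.1 hblk).1).1
        rw [zero_add, P.W_small true le_rfl, ow_hub] at hhub
        have c1 : P.toBase.u x0 (Q + 1) = P.lam false 0 := hhub.get (t := 1) (by simp)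
        have c2 : P.toBase.u x0 (Q + 2) = P.z := hhub.get (t := 2) (by simp)
        have c3 : P.toBase.u x0 (Q + 3) = P.lam false 0 := by rw [← hA3]; exact hc
        have hQ1 : Q = P.toBase.l (2 * P.s + 1 + 2 * P.s) := by rw [hQ, zero_add]
        rw [hA3]
        refine ⟨Q + 1, by omega, ?_, ?_⟩
        · intro t ht
          have : t = 0 ∨ t = 1 ∨ t = 2 := by omega
          rcases this with rfl | rfl | rfl
          · rw [add_zero, c1, show Q + 3 + 1 - 1 - 0 = Q + 3 by omega, c3]
          · rw [show Q + 3 + 1 - 1 - 1 = Q + 1 + 1 by omega]
          · rw [show Q + 1 + 2 = Q + 3 by omega, c3, show Q + 3 + 1 - 1 - 2 = Q + 1 by omega, c1]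
        · intro a' ha' hm'
          have n1 := hm' 0 (by omega)
          have n2 := hm' 1 (by omega)
          have n3 := hm' 2 (by omega)
          rw [add_zero, add_zero, c1] at n1
          rw [show Q + 1 + 1 = Q + 2 by omega, c2] at n2
          rw [show Q + 1 + 2 = Q + 3 by omega, c3] at n3
          have := first_aza (P := P) n1 n2 n3
          omega
      · -- the palindrome `c W c`
        obtain ⟨r, rfl⟩ : ∃ r', r = r' + 1 := ⟨r - 1, by omega⟩
        have hne : P.lam false r = P.lam false (r + 1) := (P.dbl false r (by omega) hr').symm
        have hA' : A = 2 * P.toBase.l (r + 2 * P.s) + P.toBase.l r := by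
          rw [hA]; exact l_step r
        have hlr1 : P.toBase.l r = 1 := by rw [P.l_small (by omega), mo_odd (by omega)]
        have hW1 : P.toBase.W true (r + 1 + 2 * P.s) =
            P.toBase.W true (r + 2 * P.s) ++ P.toBase.W false r ++ P.toBase.W true (r + 2 * P.s) := by
          have := P.toBase.W_succ (σ := true) (n := r + 2 * P.s) (by simp)
          rw [toBase_j, Nat.add_sub_cancel] at this
          rw [show r + 1 + 2 * P.s = r + 2 * P.s + 1 by omega, this]
          rfl
        have hfirst := (occ_append.1 (occ_append.1 hblk).1).1
        rw [hW1] at hfirst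
        set B := P.toBase.l (r + 2 * P.s) with hB
        have hcl : P.toBase.u x0 (Q + B) = P.lam false (r + 1) := by
          have h3 := (occ_append.1 (occ_append.1 hfirst).1).2
          rw [Base.length_W, P.W_small false (by omega), P.ow_small _ (by omega),
            mo_odd (c := r) (by omega)] at h3
          have h4 := h3.get (t := 0) (a := P.lam false r) (by simp)
          rw [← hne]
          simpa using h4
        have hin : Occ (P.toBase.u x0) (Q + B + 1) (P.toBase.W true (r + 2 * P.s)) := by
          have h3 := (occ_append.1 hfirst).2
          rw [List.length_append, Base.length_W, Base.length_W, hlr1] at h3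
          rw [show Q + B + 1 = Q + (P.toBase.l (r + 2 * P.s) + 1) by omega]
          exact h3
        refine ⟨Q + B, by omega, ?_, ?_⟩
        · intro t ht
          have hrefl : ∀ y z, y + z + 1 = B → P.toBase.u x0 (Q + B + 1 + y) =
              P.toBase.u x0 (Q + B + 1 + z) := by
            intro y z hyz
            have hpal : (factor (P.toBase.u x0) (Q + B + 1) B).reverse =
                factor (P.toBase.u x0) (Q + B + 1) B := by
              unfold Occ at hin
              rw [Base.length_W] at hin
              rw [hB, hin, P.toBase.W_pal]
            have := factor_reverse_iff.1 hpal y (by omega)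
            rw [this]
            congr 1
            omega
          rcases Nat.eq_zero_or_pos t with h2 | h2
          · subst h2
            rw [add_zero, hcl, show Q + A + 1 - 1 - 0 = Q + A by omega, hc]
          · rcases Nat.lt_or_ge t (B + 1) with h3 | h3
            · have := hrefl (t - 1) (B - t) (by omega)
              rw [show Q + B + t = Q + B + 1 + (t - 1) by omega, this]
              congr 1
              omega
            · have : t = B + 1 := by omega
              subst this
              rw [show Q + B + (B + 1) = Q + A by omega, hc,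
                show Q + A + 1 - 1 - (B + 1) = Q + B by omega, hcl]
        · intro a' ha' hmatch
          have hocc : Occ (P.toBase.u x0) (a' + 1) (P.toBase.W true (r + 2 * P.s)) := by
            apply Occ.of_get
            intro t ht
            rw [Base.length_W] at ht
            rw [hin.get' (by rw [Base.length_W]; exact ht)]
            have := hmatch (1 + t) (by omega)
            rw [show a' + 1 + t = a' + (1 + t) by omega, this]
            congr 2
            omega
          obtain ⟨s, hss, hpos⟩ := Base.nat_occ (b := P.toBase) natBase r true _ hocc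
          rw [toBase_j] at hss
          have hs1 : 1 ≤ s := by
            rcases Nat.eq_zero_or_pos s with h | h
            · subst h; rw [Base.pos_zero] at hpos; omega
            · exact h
          obtain ⟨x, y, e1, e2, e3⟩ := Base.side_hub (b := P.toBase) hs1 hss
          rw [toBase_j] at e1 e2 e3
          have hL : P.toBase.u x0 a' = P.lam false (r + 1) := by
            have := hmatch 0 (by omega)
            rw [add_zero, add_zero, hcl] at this
            exact this
          have hR : P.toBase.u x0 (a' + 1 + B) = P.lam false (r + 1) := by
            have := hmatch (B + 1) (by omega)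
            rw [show a' + (B + 1) = a' + 1 + B by omega,
              show Q + B + (B + 1) = Q + A by omega, hc] at this
            exact this
          have hx := nw_first (P := P) (x := x) (by omega) hr' hL (by
            intro a'' h''
            have h4 := (Base.nw_left (b := P.toBase) (x0 := x0) hs1 e1 h'').2
            rw [hpos] at h4
            rw [← h4]
            congr 1)
          have hy := nw_first (P := P) (x := y) (by omega) hr' hR (by
            intro a'' h''
            have h4 := (Base.nw_right (b := P.toBase) (x0 := x0) (k := r) hss e2).get h''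
            rw [hpos] at h4
            rw [← h4]
            rfl)
          have hxy : (x = 1 ∧ y = 0) ∨ (x = 0 ∧ y = 1) := by omega
          rcases hxy with ⟨rfl, rfl⟩ | ⟨rfl, rfl⟩
          · have h5 := Base.FO_fc (b := P.toBase) 1 r (s - 1) (by rw [toBase_j]; omega) e1
            have h6 := Base.pos_mono (b := P.toBase) r (show s - 1 ≤ s by omega)
            rw [toBase_j, show r + 1 + 1 + 2 * P.s + 2 * P.s = r + 1 + 2 * P.s + 1 + 2 * P.s by omega]
              at h5
            omega
          · have h5 := Base.FO_fc (b := P.toBase) 1 r (s + 1) (by rw [toBase_j]; omega) e2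
            have h6 := Base.pos_hub (b := P.toBase) (k := r) hss
            rw [toBase_j, show r + 1 + 1 + 2 * P.s + 2 * P.s = r + 1 + 2 * P.s + 1 + 2 * P.s by omega]
              at h5
            rw [toBase_j] at h6
            omega
    · obtain ⟨x, rfl⟩ : ∃ x, M = Q + A + P.toBase.l r + x :=
        ⟨M - (Q + A + P.toBase.l r), by omega⟩
      apply Base.new_cf (b := P.toBase) (by rw [toBase_j]; omega) (by omega)
      intro z hz
      exact first_f hr' hz

/-- the limit word is rich -/
theorem rich : IsRich (P.toBase.u x0) := by
  have hs := P.hs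
  apply isRich_of_new
  have key : ∀ K N, 1 ≤ N → N ≤ P.toBase.l (K + 2 * P.s) → New (P.toBase.u x0) N := by
    intro K
    induction K with
    | zero =>
      intro N h1 h2
      rw [zero_add, P.l_hub] at h2
      have h3 : N = 1 ∨ N = 2 ∨ N = 3 := by omega
      rcases h3 with rfl | rfl | rfl
      · exact new_one_letter (N := 0) (by intro z hz; omega)
      · apply new_one_letter (N := 1)
        intro z hz
        obtain rfl : z = 0 := by omega
        rw [u_zero, u_one]
        exact (P.ne _ 0 (by omega)).symm
      · refine ⟨0, by omega, ?_, ?_⟩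
        · intro t ht
          have : t = 0 ∨ t = 1 ∨ t = 2 := by omega
          rcases this with rfl | rfl | rfl
          · show P.toBase.u x0 0 = P.toBase.u x0 2
            rw [u_zero, u_two]
          · rfl
          · show P.toBase.u x0 2 = P.toBase.u x0 0
            rw [u_zero, u_two]
        · intro a' ha'
          omega
    | succ K ih =>
      intro N h1 h2
      rcases Nat.lt_or_ge (P.toBase.l (K + 2 * P.s)) N with h3 | h3
      · rcases Nat.lt_or_ge K (2 * P.s) with h4 | h4
        · exact rich_t h4 h3 h2
        · apply Base.new_step (b := P.toBase) natBase h4 h3 h2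
          · intro M h5 h6
            exact rich_j h5 h6
          · intro r hr M h5 h6
            exact rich_f hr h5 h6
      · exact ih N h1 h3
  intro N h1
  exact key N N h1 (P.toBase.l_gt N).le

end OB

end Pool.Agent.Helper20.Rich
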