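import Pool.Agent.Helper95.RT.OFinal
import Pool.Agent.Helper77.Rep.EvenSharp
import Pool.Agent.Helper20.Rich.Sharp4

/-!
MP_0687f0_co: the sharp tower bound for all numbers of letters `d ≥ 4`.
-/

open scoped ENNReal

namespace Pool.Agent.Helper20.Rich

open Pool.Agent.Helper77.Rep

theorem RT_odd_sharp {s : ℕ} (hs : 2 ≤ s) {μ : ℝ} (h2 : 2 < μ)
    (hμ : μ ^ (2 * s + 1) = 2 * μ ^ (2 * s) + 1) :
    RT (2 * s + 1) ≤ ENNReal.ofReal (1 + 1 / (3 - μ)) := by
  apply RT_odd hs h2 hμ
  have hμ1 : 1 < μ ^ (2 * s) := one_lt_pow₀ (by linarith) (by omega)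
  set b := (OF s hs).toBase with hb
  have hj : b.j = 2 * s := rfl
  have hl : ∀ m, (b.l (m + 2 * s + 1) : ℝ) = 2 * b.l (m + 2 * s) + b.l m := by
    intro m
    have := b.l_succ (n := m + 2 * s) (by rw [hj]; omega)
    rw [hj, Nat.add_sub_cancel] at this
    exact_mod_cast this
  have hS : ∀ m, (b.S (m + 2 * s) : ℝ) = b.l (m + 2 * s) + b.S m := by
    intro m
    have := Base.S_ge (b := b) (n := m + 2 * s) (by rw [hj]; omega)
    rw [hj, Nat.add_sub_cancel] at this
    exact_mod_cast this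
  have key := A1_even (j := 2 * s) (by omega) (by omega) (M := μ ^ (2 * s)) h2 rfl
    (by linear_combination hμ) (l := fun n => (b.l n : ℝ)) (S := fun n => (b.S n : ℝ))
    (by
      intro r hr
      have h1 := OB.l_small (P := OF s hs) (c := r) (by show r ≤ 2 * s - 2; omega)
      show (b.l r : ℝ) = _
      rw [hb, h1]
      rcases Nat.even_or_odd r with h | h
      · rw [h.neg_one_pow, mo_even (Nat.even_iff.1 h)]
        norm_num
      · rw [h.neg_one_pow, mo_odd (Nat.odd_iff.1 h)]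
        norm_num)
    (by
      have h1 := OB.l_emp (P := OF s hs)
      show (b.l (2 * s - 1) : ℝ) = 0
      have h2 : b.l (2 * s - 1) = 0 := h1
      rw [h2]; norm_num)
    (by
      have h1 := OB.l_hub (P := OF s hs)
      show (b.l (2 * s) : ℝ) = 3
      have h2 : b.l (2 * s) = 3 := h1
      rw [h2]; norm_num)
    hl
    (by
      intro r hr
      have h1 := OB.S_small (P := OF s hs) (n := r) (by show r < 2 * s - 1; omega)
      show (b.S r : ℝ) = 0
      have h2 : b.S r = 0 := h1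
      rw [h2]; norm_num)
    (by
      have h1 := OB.S_emp (P := OF s hs)
      show (b.S (2 * s - 1) : ℝ) = 1
      have h2 : b.S (2 * s - 1) = 1 := h1
      rw [h2]; norm_num)
    hS
  have := A1_of (b := b) (M := μ ^ (2 * s)) (ε := 1 / (μ ^ (2 * s) - 1)) hμ1
    (by rw [one_div, inv_mul_cancel₀ (by linarith)]) key
  exact this

/-- THE BOUND FOR ALL `d ≥ 4` -/
theorem RT_all {d : ℕ} (hd : 4 ≤ d) {μ : ℝ} (h2 : 2 < μ) (hμ : μ ^ d = 2 * μ ^ (d - 1) + 1) :
    RT d ≤ ENNReal.ofReal (1 + 1 / (3 - μ)) := by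
  rcases Nat.even_or_odd' d with ⟨s, h | h⟩
  · by_cases hs : s = 2
    · subst hs
      subst h
      exact RT_four h2 hμ
    · rw [const_eq (by omega) h2 hμ]
      subst h
      exact RT_even (by omega) h2 hμ
  · subst h
    apply RT_odd_sharp (by omega) h2
    simpa using hμ

end Pool.Agent.Helper20.Rich
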