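import Pool.Agent.Helper70.RT.Sheet

set_option autoImplicit false
set_option linter.unusedSimpArgs false

namespace Pool.Helper70.RT

open Polynomial

namespace S95

/-! ### the coefficients of `pI`, `pJ` -/

section
variable {R S : Type*} [CommRing R] [CommRing S]

/-- coefficients of `pI` -/
def aI (U V : R) : ℕ → R
  | 0 => -3 * h3 U V * h1 U V + h2 U V ^ 2
  | 1 => 48 * h0 U V + 6 * h3 U V * e3 U V + 4 * e2 U V * h2 U V
  | 2 => 96 * g0 U V + 4 * e2 U V ^ 2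
  | 3 => 48
  | _ => 0

/-- coefficients of `pJ` -/
def aJ (U V : R) : ℕ → R
  | 0 => 9 * h3 U V * h2 U V * h1 U V - 27 * h0 U V * h3 U V ^ 2 - 2 * h2 U V ^ 3
  | 1 => 288 * h2 U V * h0 U V + 18 * e2 U V * h1 U V * h3 U V - 18 * e3 U V * h2 U V * h3 U V -
      108 * h1 U V ^ 2 - 54 * g0 U V * h3 U V ^ 2 - 12 * e2 U V * h2 U V ^ 2
  | 2 => 576 * g0 U V * h2 U V + 576 * e2 U V * h0 U V - 36 * h3 U V * e2 U V * e3 U V +
      432 * e3 U V * h1 U V - 27 * h3 U V ^ 2 - 24 * e2 U V ^ 2 * h2 U V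
  | 3 => 288 * h2 U V + 1152 * e2 U V * g0 U V - 432 * e3 U V ^ 2 - 16 * e2 U V ^ 3
  | 4 => 576 * e2 U V
  | _ => 0

theorem map_e2 (f : R →+* S) (U V : R) : f (e2 U V) = e2 (f U) (f V) := by simp [e2, map_ofNat]
theorem map_e3 (f : R →+* S) (U V : R) : f (e3 U V) = e3 (f U) (f V) := by simp [e3, map_ofNat]
theorem map_g0 (f : R →+* S) (U V : R) : f (g0 U V) = g0 (f U) (f V) := by simp [g0, map_ofNat]
theorem map_h3 (f : R →+* S) (U V : R) : f (h3 U V) = h3 (f U) (f V) := by simp [h3, map_ofNat]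
theorem map_h2 (f : R →+* S) (U V : R) : f (h2 U V) = h2 (f U) (f V) := by simp [h2, map_ofNat]
theorem map_h1 (f : R →+* S) (U V : R) : f (h1 U V) = h1 (f U) (f V) := by simp [h1, map_ofNat]
theorem map_h0 (f : R →+* S) (U V : R) : f (h0 U V) = h0 (f U) (f V) := by simp [h0, map_ofNat]

theorem pI_eq (U V : R) : pI U V = C (aI U V 3) * X ^ 3 + C (aI U V 2) * X ^ 2 +
    C (aI U V 1) * X + C (aI U V 0) := by
  unfold pI fI q4 q3 q2 q1 q0 aI
  simp only [← map_e2 C, ← map_e3 C, ← map_g0 C, ← map_h3 C, ← map_h2 C, ← map_h1 C, ← map_h0 C,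
    map_add, map_mul, map_sub, map_pow, map_neg, map_ofNat]
  ring

theorem pJ_eq (U V : R) : pJ U V = C (aJ U V 4) * X ^ 4 + C (aJ U V 3) * X ^ 3 +
    C (aJ U V 2) * X ^ 2 + C (aJ U V 1) * X + C (aJ U V 0) := by
  unfold pJ fJ q4 q3 q2 q1 q0 aJ
  simp only [← map_e2 C, ← map_e3 C, ← map_g0 C, ← map_h3 C, ← map_h2 C, ← map_h1 C, ← map_h0 C,
    map_add, map_mul, map_sub, map_pow, map_neg, map_ofNat]
  ring

theorem pI_coeff (U V : R) (k : ℕ) : (pI U V).coeff k = aI U V k := by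
  rw [pI_eq]
  simp only [coeff_add, coeff_C_mul, coeff_X_pow, coeff_X, coeff_C]
  rcases k with _ | _ | _ | _ | k
  · simp
  · simp
  · simp
  · simp
  · simp [aI]

theorem pJ_coeff (U V : R) (k : ℕ) : (pJ U V).coeff k = aJ U V k := by
  rw [pJ_eq]
  simp only [coeff_add, coeff_C_mul, coeff_X_pow, coeff_X, coeff_C]
  rcases k with _ | _ | _ | _ | _ | k
  · simp
  · simp
  · simp
  · simp
  · simp
  · simp [aJ]

theorem map_aI (f : R →+* S) (U V : R) (k : ℕ) : f (aI U V k) = aI (f U) (f V) k := by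
  rcases k with _ | _ | _ | _ | k <;>
    simp [aI, map_ofNat, map_e2, map_e3, map_g0, map_h3, map_h2, map_h1, map_h0]

theorem map_aJ (f : R →+* S) (U V : R) (k : ℕ) : f (aJ U V k) = aJ (f U) (f V) k := by
  rcases k with _ | _ | _ | _ | _ | k <;>
    simp [aJ, map_ofNat, map_e2, map_e3, map_g0, map_h3, map_h2, map_h1, map_h0]

/-- the Sylvester matrix -/
def mat (U V : R) : Matrix (Fin 7) (Fin 7) R := Matrix.of fun i j =>
  if (i : ℕ) < 4 then (if (i : ℕ) ≤ j then aI U V ((j : ℕ) - i) else 0)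
  else (if (i : ℕ) - 4 ≤ j then aJ U V ((j : ℕ) - (i - 4)) else 0)

theorem Ru_eq (U V : R) : Ru U V = (mat U V).det := by
  unfold Ru
  congr 1
  ext i j
  simp only [syl, mat, Matrix.of_apply, pI_coeff, pJ_coeff]

theorem map_Ru (f : R →+* S) (U V : R) : f (Ru U V) = Ru (f U) (f V) := by
  rw [Ru_eq, Ru_eq, RingHom.map_det]
  congr 1
  ext i j
  simp only [mat, RingHom.mapMatrix_apply, Matrix.map_apply, Matrix.of_apply]
  split_ifs <;> simp [map_aI, map_aJ]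
end

/-! ### not zero modulo 5 -/

def M5 : Matrix (Fin 7) (Fin 7) (ZMod 5) :=
  !![1, 1, 4, 3, 0, 0, 0; 0, 1, 1, 4, 3, 0, 0; 0, 0, 1, 1, 4, 3, 0; 0, 0, 0, 1, 1, 4, 3;
    2, 3, 4, 1, 1, 0, 0; 0, 2, 3, 4, 1, 1, 0; 0, 0, 2, 3, 4, 1, 1]

def N5 : Matrix (Fin 7) (Fin 7) (ZMod 5) :=
  !![3, 4, 4, 0, 4, 3, 0; 0, 3, 4, 4, 0, 4, 3; 2, 3, 2, 0, 4, 4, 0; 0, 2, 3, 2, 0, 4, 4;
    1, 4, 4, 1, 2, 2, 2; 3, 3, 0, 3, 1, 3, 1; 4, 4, 1, 2, 3, 4, 0]

theorem M5N5 : M5 * N5 = 1 := by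
  decide +kernel

theorem vals : e2 (4 : ZMod 5) 4 = 1 ∧ e3 (4 : ZMod 5) 4 = 0 ∧ g0 (4 : ZMod 5) 4 = 0 ∧
    h0 (4 : ZMod 5) 4 = 0 ∧ h1 (4 : ZMod 5) 4 = 0 ∧ h2 (4 : ZMod 5) 4 = 4 ∧
    h3 (4 : ZMod 5) 4 = 0 := by
  refine ⟨?_, ?_, ?_, ?_, ?_, ?_, ?_⟩
  · unfold e2; decide +kernel
  · unfold e3; decide +kernel
  · unfold g0; decide +kernel
  · unfold h0; decide +kernel
  · unfold h1; decide +kernel
  · unfold h2; decide +kernel
  · unfold h3; decide +kernel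

theorem aI5 (k : ℕ) : aI (4 : ZMod 5) 4 k =
    if k = 0 then 1 else if k = 1 then 1 else if k = 2 then 4 else if k = 3 then 3 else 0 := by
  obtain ⟨a, b, c, d, e, f, g⟩ := vals
  rcases k with _ | _ | _ | _ | k
  · simp only [aI, a, b, c, d, e, f, g]; decide +kernel
  · simp only [aI, a, b, c, d, e, f, g]; decide +kernel
  · simp only [aI, a, b, c, d, e, f, g]; decide +kernel
  · simp only [aI, a, b, c, d, e, f, g]; decide +kernel
  · simp [aI]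

theorem aJ5 (k : ℕ) : aJ (4 : ZMod 5) 4 k =
    if k = 0 then 2 else if k = 1 then 3 else if k = 2 then 4 else if k = 3 then 1
      else if k = 4 then 1 else 0 := by
  obtain ⟨a, b, c, d, e, f, g⟩ := vals
  rcases k with _ | _ | _ | _ | _ | k
  · simp only [aJ, a, b, c, d, e, f, g]; decide +kernel
  · simp only [aJ, a, b, c, d, e, f, g]; decide +kernel
  · simp only [aJ, a, b, c, d, e, f, g]; decide +kernel
  · simp only [aJ, a, b, c, d, e, f, g]; decide +kernel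
  · simp only [aJ, a, b, c, d, e, f, g]; decide +kernel
  · simp [aJ]

theorem mat5 : mat (4 : ZMod 5) 4 = M5 := by
  ext i j
  simp only [mat, Matrix.of_apply, aI5, aJ5]
  revert i j
  decide +kernel

theorem Ru5 : Ru (4 : ZMod 5) 4 ≠ 0 := by
  rw [Ru_eq, mat5]
  intro h
  have h1 := congrArg Matrix.det M5N5
  rw [Matrix.det_mul, h, zero_mul, Matrix.det_one] at h1
  exact absurd h1 (by decide)

theorem MM5 : ((MM : ℤ) : ZMod 5) = 0 := by
  rw [ZMod.intCast_zmod_eq_zero_iff_dvd]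
  unfold MM
  refine dvd_mul_of_dvd_right ?_ _
  have h : 5 ∣ QQ.factorial := by
    refine Nat.dvd_factorial (by norm_num) ?_
    unfold QQ
    omega
  exact_mod_cast h

theorem nz (T : ℕ × ℕ × ℕ) : Ru (ww T).1 (ww T).2.1 ≠ 0 := by
  intro h
  have h1 := congrArg (Int.castRingHom (ZMod 5)) h
  rw [map_Ru, map_zero] at h1
  apply Ru5
  have e1 : (Int.castRingHom (ZMod 5)) (ww T).1 = 4 := by
    unfold ww
    simp [MM5]
  have e2 : (Int.castRingHom (ZMod 5)) (ww T).2.1 = 4 := by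
    unfold ww
    simp only [eq_intCast, Int.cast_add, Int.cast_mul, MM5, zero_mul, add_zero]
    decide
  rw [← h1, e1, e2]

/-! ### the size -/

/-- value of a list of monomials -/
def evL (L : List (ℤ × ℕ × ℕ)) (U V : ℤ) : ℤ := (L.map fun x => x.1 * U ^ x.2.1 * V ^ x.2.2).sum

theorem evL_le (L : List (ℤ × ℕ × ℕ)) (h : ∀ x ∈ L, x.2.1 + x.2.2 ≤ 8) :
    ∃ c : ℤ, 0 ≤ c ∧ ∀ M U V : ℤ, 1 ≤ M → |U| ≤ M → |V| ≤ M → |evL L U V| ≤ c * M ^ 8 := by
  induction L with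
  | nil => exact ⟨0, le_refl _, fun M U V _ _ _ => by simp [evL]⟩
  | cons x L ih =>
    obtain ⟨c, hc, hL⟩ := ih fun y hy => h y (List.mem_cons_of_mem _ hy)
    refine ⟨|x.1| + c, by positivity, ?_⟩
    intro M U V hM hU hV
    have h1 : evL (x :: L) U V = x.1 * U ^ x.2.1 * V ^ x.2.2 + evL L U V := by simp [evL]
    rw [h1, add_mul]
    refine (abs_add_le _ _).trans (add_le_add ?_ (hL M U V hM hU hV))
    rw [abs_mul, abs_mul, abs_pow, abs_pow, mul_assoc]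
    refine mul_le_mul_of_nonneg_left ?_ (abs_nonneg _)
    calc |U| ^ x.2.1 * |V| ^ x.2.2 ≤ M ^ x.2.1 * M ^ x.2.2 :=
          mul_le_mul (pow_le_pow_left₀ (abs_nonneg _) hU _) (pow_le_pow_left₀ (abs_nonneg _) hV _)
            (by positivity) (by positivity)
      _ = M ^ (x.2.1 + x.2.2) := (pow_add _ _ _).symm
      _ ≤ M ^ 8 := pow_le_pow_right₀ hM (h x (List.mem_cons_self))

/-- a uniform bound for the seven forms -/
theorem forms_le : ∃ c : ℤ, 1 ≤ c ∧ ∀ M U V : ℤ, 1 ≤ M → |U| ≤ M → |V| ≤ M →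
    |e2 U V| ≤ c * M ^ 8 ∧ |e3 U V| ≤ c * M ^ 8 ∧ |g0 U V| ≤ c * M ^ 8 ∧ |h0 U V| ≤ c * M ^ 8 ∧
    |h1 U V| ≤ c * M ^ 8 ∧ |h2 U V| ≤ c * M ^ 8 ∧ |h3 U V| ≤ c * M ^ 8 := by
  obtain ⟨c1, p1, q1⟩ := evL_le [(-366, 2, 0), (12, 1, 1), (-5340, 0, 2)] (by decide)
  obtain ⟨c2, p2, q2⟩ := evL_le [(300, 3, 0), (-136, 2, 1), (17464, 1, 2), (127392, 0, 3)]
    (by decide)
  obtain ⟨c3, p3, q3⟩ := evL_le [(-3600, 4, 0), (40260, 3, 1), (-91374, 2, 2), (-203652, 1, 3),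
    (-788694, 0, 4)] (by decide)
  obtain ⟨c4, p4, q4⟩ := evL_le [(2822400, 8, 0), (-105198720, 7, 1), (2729107264, 6, 2),
    (-23024181984, 5, 3), (-7559713232, 4, 4), (442707061248, 3, 5), (583358372032, 2, 6),
    (-1601906060544, 1, 7), (740566619136, 0, 8)] (by decide)
  obtain ⟨c5, p5, q5⟩ := evL_le [(5784960, 7, 0), (-26871424, 6, 1), (-893176416, 5, 2),
    (314499616, 4, 3), (46173836384, 3, 4), (106997185152, 2, 5), (-237460178048, 1, 6),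
    (103693595136, 0, 7)] (by decide)
  obtain ⟨c6, p6, q6⟩ := evL_le [(4535296, 6, 0), (-50624256, 5, 1), (129233472, 4, 2),
    (1707932096, 3, 3), (5598163008, 2, 4), (-11334617088, 1, 5), (4694354176, 0, 6)] (by decide)
  obtain ⟨c7, p7, q7⟩ := evL_le [(-101760, 5, 0), (-3510784, 4, 1), (34030688, 3, 2),
    (79008256, 2, 3), (-170956928, 1, 4), (67619328, 0, 5)] (by decide)
  refine ⟨1 + c1 + c2 + c3 + c4 + c5 + c6 + c7, by linarith, ?_⟩
  intro M U V hM hU hV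
  have hM8 : (0 : ℤ) ≤ M ^ 8 := by positivity
  have r1 := q1 M U V hM hU hV
  have r2 := q2 M U V hM hU hV
  have r3 := q3 M U V hM hU hV
  have r4 := q4 M U V hM hU hV
  have r5 := q5 M U V hM hU hV
  have r6 := q6 M U V hM hU hV
  have r7 := q7 M U V hM hU hV
  have s1 : evL [(-366, 2, 0), (12, 1, 1), (-5340, 0, 2)] U V = e2 U V := by
    simp [evL, e2]; ring
  have s2 : evL [(300, 3, 0), (-136, 2, 1), (17464, 1, 2), (127392, 0, 3)] U V = e3 U V := by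
    simp [evL, e3]; ring
  have s3 : evL [(-3600, 4, 0), (40260, 3, 1), (-91374, 2, 2), (-203652, 1, 3),
    (-788694, 0, 4)] U V = g0 U V := by simp [evL, g0]; ring
  have s4 : evL [(2822400, 8, 0), (-105198720, 7, 1), (2729107264, 6, 2),
    (-23024181984, 5, 3), (-7559713232, 4, 4), (442707061248, 3, 5), (583358372032, 2, 6),
    (-1601906060544, 1, 7), (740566619136, 0, 8)] U V = h0 U V := by simp [evL, h0]; ring
  have s5 : evL [(5784960, 7, 0), (-26871424, 6, 1), (-893176416, 5, 2),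
    (314499616, 4, 3), (46173836384, 3, 4), (106997185152, 2, 5), (-237460178048, 1, 6),
    (103693595136, 0, 7)] U V = h1 U V := by simp [evL, h1]; ring
  have s6 : evL [(4535296, 6, 0), (-50624256, 5, 1), (129233472, 4, 2),
    (1707932096, 3, 3), (5598163008, 2, 4), (-11334617088, 1, 5), (4694354176, 0, 6)] U V =
    h2 U V := by simp [evL, h2]; ring
  have s7 : evL [(-101760, 5, 0), (-3510784, 4, 1), (34030688, 3, 2),
    (79008256, 2, 3), (-170956928, 1, 4), (67619328, 0, 5)] U V = h3 U V := by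
    simp [evL, h3]; ring
  rw [s1] at r1
  rw [s2] at r2
  rw [s3] at r3
  rw [s4] at r4
  rw [s5] at r5
  rw [s6] at r6
  rw [s7] at r7
  refine ⟨?_, ?_, ?_, ?_, ?_, ?_, ?_⟩ <;>
  · refine le_trans (by assumption) (mul_le_mul_of_nonneg_right ?_ hM8)
    linarith

theorem m1 {B x : ℤ} (hB : 1 ≤ B) (hx : |x| ≤ B) : |x| ≤ B ^ 3 :=
  hx.trans (le_self_pow₀ hB (by norm_num))

theorem m2 {B x y : ℤ} (hB : 1 ≤ B) (hx : |x| ≤ B) (hy : |y| ≤ B) : |x * y| ≤ B ^ 3 := by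
  rw [abs_mul]
  calc |x| * |y| ≤ B * B := mul_le_mul hx hy (abs_nonneg _) (by linarith)
    _ = B ^ 2 := by ring
    _ ≤ B ^ 3 := pow_le_pow_right₀ hB (by norm_num)

theorem m3 {B x y z : ℤ} (hB : 1 ≤ B) (hx : |x| ≤ B) (hy : |y| ≤ B) (hz : |z| ≤ B) :
    |x * y * z| ≤ B ^ 3 := by
  rw [abs_mul, abs_mul]
  calc |x| * |y| * |z| ≤ B * B * B :=
        mul_le_mul (mul_le_mul hx hy (abs_nonneg _) (by linarith)) hz (abs_nonneg _)
          (by nlinarith)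
    _ = B ^ 3 := by ring

theorem aI_le {U V B : ℤ} (hB : 1 ≤ B) (a : |e2 U V| ≤ B) (b : |e3 U V| ≤ B) (c : |g0 U V| ≤ B)
    (d : |h0 U V| ≤ B) (e : |h1 U V| ≤ B) (f : |h2 U V| ≤ B) (g : |h3 U V| ≤ B) (k : ℕ) :
    |aI U V k| ≤ 3000 * B ^ 3 := by
  have hB3 : (1 : ℤ) ≤ B ^ 3 := one_le_pow₀ hB
  rcases k with _ | _ | _ | _ | k
  · have t1 := abs_le.1 (m2 hB g e)
    have t2 := abs_le.1 (m2 hB f f)
    simp only [aI]
    rw [abs_le]
    constructor <;> linarith [t1.1, t1.2, t2.1, t2.2]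
  · have t1 := abs_le.1 (m1 hB d)
    have t2 := abs_le.1 (m2 hB g b)
    have t3 := abs_le.1 (m2 hB a f)
    simp only [aI]
    rw [abs_le]
    constructor <;> linarith [t1.1, t1.2, t2.1, t2.2, t3.1, t3.2]
  · have t1 := abs_le.1 (m1 hB c)
    have t2 := abs_le.1 (m2 hB a a)
    simp only [aI]
    rw [abs_le]
    constructor <;> linarith [t1.1, t1.2, t2.1, t2.2]
  · simp only [aI]
    rw [abs_le]
    constructor <;> linarith
  · simp only [aI, abs_zero]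
    linarith

theorem aJ_le {U V B : ℤ} (hB : 1 ≤ B) (a : |e2 U V| ≤ B) (b : |e3 U V| ≤ B) (c : |g0 U V| ≤ B)
    (d : |h0 U V| ≤ B) (e : |h1 U V| ≤ B) (f : |h2 U V| ≤ B) (g : |h3 U V| ≤ B) (k : ℕ) :
    |aJ U V k| ≤ 3000 * B ^ 3 := by
  have hB3 : (1 : ℤ) ≤ B ^ 3 := one_le_pow₀ hB
  rcases k with _ | _ | _ | _ | _ | k
  · have t1 := abs_le.1 (m3 hB g f e)
    have t2 := abs_le.1 (m3 hB d g g)
    have t3 := abs_le.1 (m3 hB f f f)
    simp only [aJ]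
    rw [abs_le]
    constructor <;> linarith [t1.1, t1.2, t2.1, t2.2, t3.1, t3.2]
  · have t1 := abs_le.1 (m2 hB f d)
    have t2 := abs_le.1 (m3 hB a e g)
    have t3 := abs_le.1 (m3 hB b f g)
    have t4 := abs_le.1 (m2 hB e e)
    have t5 := abs_le.1 (m3 hB c g g)
    have t6 := abs_le.1 (m3 hB a f f)
    simp only [aJ]
    rw [abs_le]
    constructor <;> linarith [t1.1, t1.2, t2.1, t2.2, t3.1, t3.2, t4.1, t4.2, t5.1, t5.2, t6.1,
      t6.2]
  · have t1 := abs_le.1 (m2 hB c f)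
    have t2 := abs_le.1 (m2 hB a d)
    have t3 := abs_le.1 (m3 hB g a b)
    have t4 := abs_le.1 (m2 hB b e)
    have t5 := abs_le.1 (m2 hB g g)
    have t6 := abs_le.1 (m3 hB a a f)
    simp only [aJ]
    rw [abs_le]
    constructor <;> linarith [t1.1, t1.2, t2.1, t2.2, t3.1, t3.2, t4.1, t4.2, t5.1, t5.2, t6.1,
      t6.2]
  · have t1 := abs_le.1 (m1 hB f)
    have t2 := abs_le.1 (m2 hB a c)
    have t3 := abs_le.1 (m2 hB b b)
    have t4 := abs_le.1 (m3 hB a a a)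
    simp only [aJ]
    rw [abs_le]
    constructor <;> linarith [t1.1, t1.2, t2.1, t2.2, t3.1, t3.2, t4.1, t4.2]
  · have t1 := abs_le.1 (m1 hB a)
    simp only [aJ]
    rw [abs_le]
    constructor <;> linarith [t1.1, t1.2]
  · simp only [aJ, abs_zero]
    linarith

/-- the bound for the resultant -/
theorem Ru_le : ∃ c : ℤ, 1 ≤ c ∧ ∀ M U V : ℤ, 1 ≤ M → |U| ≤ M → |V| ≤ M →
    |Ru U V| ≤ c * M ^ 168 := by
  obtain ⟨c, hc, h⟩ := forms_le
  refine ⟨5040 * (3000 * c ^ 3) ^ 7, ?_, ?_⟩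
  · have : (1 : ℤ) ≤ c ^ 3 := one_le_pow₀ hc
    have : (1 : ℤ) ≤ (3000 * c ^ 3) ^ 7 := one_le_pow₀ (by linarith)
    linarith
  · intro M U V hM hU hV
    obtain ⟨h1, h2, h3, h4, h5, h6, h7⟩ := h M U V hM hU hV
    have hB : (1 : ℤ) ≤ c * M ^ 8 := by
      have : (1 : ℤ) ≤ M ^ 8 := one_le_pow₀ hM
      nlinarith
    have key : |(mat U V).det| ≤ (Fintype.card (Fin 7)).factorial •
        (3000 * (c * M ^ 8) ^ 3) ^ Fintype.card (Fin 7) := by
      refine Matrix.det_le (abv := AbsoluteValue.abs) ?_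
      intro i j
      simp only [mat, Matrix.of_apply, AbsoluteValue.abs_apply]
      have hp : (0 : ℤ) ≤ 3000 * (c * M ^ 8) ^ 3 := by positivity
      split_ifs
      · exact aI_le hB h1 h2 h3 h4 h5 h6 h7 _
      · simpa using hp
      · exact aJ_le hB h1 h2 h3 h4 h5 h6 h7 _
      · simpa using hp
    rw [Ru_eq]
    refine key.trans (le_of_eq ?_)
    rw [Fintype.card_fin]
    simp only [nsmul_eq_mul]
    have h5040 : ((Nat.factorial 7 : ℕ) : ℤ) = 5040 := by decide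
    rw [h5040, mul_pow c, ← pow_mul, ← mul_assoc 3000, mul_pow _ (M ^ (8 * 3)), ← pow_mul,
      ← mul_assoc]

theorem MM_pos : (0 : ℤ) < MM := by
  unfold MM
  exact mul_pos (by norm_num) (by exact_mod_cast Nat.factorial_pos QQ)

theorem aff_le {b M a m B : ℤ} (hM : 0 < M) (hm : 1 ≤ m) (ha : 0 ≤ a) (ha' : a ≤ m) (hB : |b| ≤ B) :
    |b + M * a| ≤ (B + M) * m := by
  refine (abs_add_le _ _).trans ?_
  rw [abs_mul, abs_of_pos hM, abs_of_nonneg ha]
  have hB0 : 0 ≤ B := (abs_nonneg b).trans hB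
  nlinarith [mul_le_mul_of_nonneg_left ha' hM.le, mul_le_mul_of_nonneg_left hm hB0]

end S95

/-- row RNZ -/
theorem st_RNZ : ST_RNZ := by
  obtain ⟨c, hc, h⟩ := S95.Ru_le
  obtain ⟨M, hM⟩ : ∃ M : ℤ, M = MM := ⟨MM, rfl⟩
  have hM0 : 0 < M := hM ▸ S95.MM_pos
  obtain ⟨L, hL⟩ : ∃ L : ℤ, L = 4 + M := ⟨_, rfl⟩
  have hL1 : 1 ≤ L := by linarith
  obtain ⟨D, hD⟩ : ∃ D : ℤ, D = L ^ 168 := ⟨_, rfl⟩
  have hD0 : 0 ≤ D := by rw [hD]; exact pow_nonneg (by linarith) _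
  have hK : (0 : ℤ) ≤ c * D := mul_nonneg (by linarith) hD0
  refine ⟨(c * D).toNat + 1, by omega, ?_⟩
  intro m hm T hT
  refine ⟨S95.nz T, ?_⟩
  have hm1 : (1 : ℤ) ≤ (m : ℤ) := by exact_mod_cast hm
  unfold Box at hT
  rw [Finset.mem_product, Finset.mem_product, Finset.mem_range, Finset.mem_range] at hT
  obtain ⟨hT1, hT2, -⟩ := hT
  have hU : |(ww T).1| ≤ L * (m : ℤ) := by
    unfold ww
    rw [hL, ← hM]
    exact S95.aff_le hM0 hm1 (Int.natCast_nonneg _) (by exact_mod_cast hT1.le) (by norm_num)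
  have hV : |(ww T).2.1| ≤ L * (m : ℤ) := by
    unfold ww
    rw [hL, ← hM]
    exact S95.aff_le hM0 hm1 (Int.natCast_nonneg _) (by exact_mod_cast hT2.le) (by norm_num)
  have hLm : 1 ≤ L * (m : ℤ) := one_le_mul_of_one_le_of_one_le hL1 hm1
  have h1 := h (L * (m : ℤ)) _ _ hLm hU hV
  refine h1.trans ?_
  have h2 : (((c * D).toNat + 1 : ℕ) : ℤ) = c * D + 1 := by
    rw [Nat.cast_add, Nat.cast_one, Int.toNat_of_nonneg hK]
  rw [h2, mul_pow, ← hD]
  have h3 : (m : ℤ) ^ 168 ≤ (m : ℤ) ^ 1000 := pow_le_pow_right₀ hm1 (by norm_num)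
  have h4 : (0 : ℤ) ≤ (m : ℤ) ^ 1000 := pow_nonneg (by linarith) _
  generalize (m : ℤ) ^ 168 = a at h3 ⊢
  generalize (m : ℤ) ^ 1000 = b at h3 h4 ⊢
  calc c * (D * a) = c * D * a := by ring
    _ ≤ c * D * b := mul_le_mul_of_nonneg_left h3 hK
    _ ≤ (c * D + 1) * b := by
        rw [add_mul, one_mul]
        linarith

end Pool.Helper70.RT
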